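import Pool.Agent.H54.TT.Lau
import Mathlib.Analysis.Normed.Field.Ultra
import Mathlib.Analysis.Normed.Group.Ultra
import Mathlib.Topology.MetricSpace.ProperSpace

/-!
# [H92 LG Loc] the field of the Laurent series over a finite field as a local normed field

`LL E` is the field of the Laurent series, `od` its valuation, the norm is `2 ^ (- od x)`.
-/

set_option autoImplicit false

namespace Pool.Agent.H92.LG

open Pool.Agent.H54.TT

/-- the absolute value of a discrete valuation -/
noncomputable def av {L : Type} [Field L] {w : L → ℤ} (hw : IsDV w) : AbsoluteValue L ℝ := by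
  classical
  exact
  { toFun := fun x => if x = 0 then 0 else (2 : ℝ) ^ (-(w x))
    map_mul' := by
      intro x y
      by_cases hx : x = 0
      · rw [if_pos hx, hx, zero_mul, if_pos rfl, zero_mul]
      by_cases hy : y = 0
      · rw [if_pos hy, hy, mul_zero, if_pos rfl, mul_zero]
      rw [if_neg hx, if_neg hy, if_neg (mul_ne_zero hx hy), hw.mul x y hx hy, neg_add, zpow_add₀ two_ne_zero]
    nonneg' := by
      intro x
      by_cases hx : x = 0
      · rw [if_pos hx]
      · rw [if_neg hx]
        positivity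
    eq_zero' := by
      intro x
      by_cases hx : x = 0
      · rw [if_pos hx]
        exact ⟨fun _ => hx, fun _ => rfl⟩
      · rw [if_neg hx]
        exact ⟨fun h => absurd h (by positivity), fun h => absurd h hx⟩
    add_le' := by
      intro x y
      by_cases hx : x = 0
      · rw [if_pos hx, hx, zero_add, zero_add]
      by_cases hy : y = 0
      · rw [if_pos hy, hy, add_zero, add_zero]
      rw [if_neg hx, if_neg hy]
      by_cases hxy : x + y = 0
      · rw [if_pos hxy]
        positivity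
      rw [if_neg hxy]
      have h1 := hw.add x y hx hy hxy
      rcases le_total (w x) (w y) with h | h
      · rw [min_eq_left h] at h1
        calc (2 : ℝ) ^ (-(w (x + y))) ≤ (2 : ℝ) ^ (-(w x)) := zpow_le_zpow_right₀ one_le_two (neg_le_neg h1)
          _ ≤ _ := le_add_of_nonneg_right (by positivity)
      · rw [min_eq_right h] at h1
        calc (2 : ℝ) ^ (-(w (x + y))) ≤ (2 : ℝ) ^ (-(w y)) := zpow_le_zpow_right₀ one_le_two (neg_le_neg h1)
          _ ≤ _ := le_add_of_nonneg_left (by positivity) }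

theorem av_zero {L : Type} [Field L] {w : L → ℤ} (hw : IsDV w) : av hw 0 = 0 := map_zero _

theorem av_ne {L : Type} [Field L] {w : L → ℤ} (hw : IsDV w) {x : L} (hx : x ≠ 0) : av hw x = (2 : ℝ) ^ (-(w x)) := by
  classical
  show (if x = 0 then (0 : ℝ) else (2 : ℝ) ^ (-(w x))) = _
  rw [if_neg hx]

/-- `‖x‖ ≤ 2 ^ (- m)` means valuation at least `m` -/
theorem av_le {L : Type} [Field L] {w : L → ℤ} (hw : IsDV w) (m : ℤ) (x : L) : av hw x ≤ (2 : ℝ) ^ (-m) ↔ Ge w m x := by
  by_cases hx : x = 0
  · rw [hx, av_zero]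
    exact ⟨fun _ h => absurd rfl h, fun _ => by positivity⟩
  · rw [av_ne hw hx]
    constructor
    · intro h _
      have h1 := (zpow_le_zpow_iff_right₀ (one_lt_two (α := ℝ))).1 h
      omega
    · intro h
      exact zpow_le_zpow_right₀ one_le_two (neg_le_neg (h hx))

theorem av_add {L : Type} [Field L] {w : L → ℤ} (hw : IsDV w) (x y : L) : av hw (x + y) ≤ max (av hw x) (av hw y) := by
  by_cases hx : x = 0
  · rw [hx, zero_add]
    exact le_max_right _ _
  by_cases hy : y = 0
  · rw [hy, add_zero]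
    exact le_max_left _ _
  by_cases hxy : x + y = 0
  · rw [hxy, av_zero]
    exact le_max_of_le_left ((av hw).nonneg x)
  rw [av_ne hw hx, av_ne hw hy, av_ne hw hxy]
  have h1 := hw.add x y hx hy hxy
  rcases min_le_iff.1 h1 with h | h
  · exact le_max_of_le_left (zpow_le_zpow_right₀ one_le_two (neg_le_neg h))
  · exact le_max_of_le_right (zpow_le_zpow_right₀ one_le_two (neg_le_neg h))

/-! ### Laurent series -/

/-- the field of the Laurent series -/
def LL (E : Type) [Field E] : Type := HahnSeries ℤ E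

noncomputable instance (E : Type) [Field E] : Field (LL E) := inferInstanceAs (Field (HahnSeries ℤ E))

/-- the order -/
noncomputable def od (E : Type) [Field E] : LL E → ℤ := HahnSeries.order

theorem isDV_od (E : Type) [Field E] : IsDV (od E) := isDV_order E

noncomputable instance (E : Type) [Field E] : NormedField (LL E) := (av (isDV_od E)).toNormedField

theorem norm_eq {E : Type} [Field E] (x : LL E) : ‖x‖ = av (isDV_od E) x := rfl

theorem norm_ne {E : Type} [Field E] {x : LL E} (hx : x ≠ 0) : ‖x‖ = (2 : ℝ) ^ (-(od E x)) := av_ne _ hx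

theorem norm_le {E : Type} [Field E] (m : ℤ) (x : LL E) : ‖x‖ ≤ (2 : ℝ) ^ (-m) ↔ Ge (od E) m x := av_le _ m x

instance (E : Type) [Field E] : IsUltrametricDist (LL E) :=
  IsUltrametricDist.isUltrametricDist_of_forall_norm_add_le_max_norm fun x y => av_add _ x y

/-- the series with the coefficients `a`, starting at `m` -/
noncomputable def sr {E : Type} [Field E] (m : ℤ) (a : ℕ → E) : LL E :=
  HahnSeries.ofSuppBddBelow (fun i : ℤ => if m ≤ i then a (i - m).toNat else 0) ⟨m, by
    intro i hi
    by_contra h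
    exact hi (if_neg h)⟩

theorem ge_iff {E : Type} [Field E] (m : ℤ) (x : LL E) :
    Ge (od E) m x ↔ ∀ i < m, (HahnSeries.coeff (x : HahnSeries ℤ E)) i = 0 := by
  constructor
  · intro h i hi
    by_cases hx : x = 0
    · rw [hx]
      rfl
    · exact HahnSeries.coeff_eq_zero_of_lt_order (lt_of_lt_of_le hi (h hx))
  · intro h hx
    by_contra hcon
    exact hx ((HahnSeries.coeff_order_eq_zero (x := (x : HahnSeries ℤ E))).1 (h _ (not_le.1 hcon)))

theorem exists_sr {E : Type} [Field E] {m : ℤ} {x : LL E} (hx : Ge (od E) m x) : ∃ a : ℕ → E, sr m a = x := by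
  refine ⟨fun j => (HahnSeries.coeff (x : HahnSeries ℤ E)) (m + j), ?_⟩
  refine HahnSeries.ext ?_
  funext i
  show (if m ≤ i then (HahnSeries.coeff (x : HahnSeries ℤ E)) (m + ((i - m).toNat : ℕ)) else 0) = _
  by_cases h : m ≤ i
  · rw [if_pos h, Int.toNat_of_nonneg (by omega), add_sub_cancel]
  · rw [if_neg h, (ge_iff m x).1 hx i (by omega)]

theorem sr_sub {E : Type} [Field E] (m : ℤ) {a b : ℕ → E} {k : ℕ} (h : ∀ j < k, a j = b j) :
    ‖sr m a - sr m b‖ ≤ (2 : ℝ) ^ (-(m + k)) := by
  rw [norm_le, ge_iff]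
  intro i hi
  show (if m ≤ i then a (i - m).toNat else 0) - (if m ≤ i then b (i - m).toNat else 0) = 0
  by_cases h1 : m ≤ i
  · rw [if_pos h1, if_pos h1, h _ (by omega), sub_self]
  · rw [if_neg h1, if_neg h1, sub_self]

theorem continuous_sr {E : Type} [Field E] [TopologicalSpace E] [DiscreteTopology E] (m : ℤ) :
    Continuous (sr m : (ℕ → E) → LL E) := by
  rw [continuous_iff_continuousAt]
  intro a
  rw [ContinuousAt, Metric.tendsto_nhds]
  intro ε hε
  obtain ⟨k, hk⟩ : ∃ k : ℕ, (2 : ℝ) ^ (-(m + k)) < ε := by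
    have h1 : Filter.Tendsto (fun k : ℕ => (2 : ℝ) ^ (-m) * (1 / 2 : ℝ) ^ k) Filter.atTop (nhds ((2 : ℝ) ^ (-m) * 0)) :=
      (tendsto_pow_atTop_nhds_zero_of_lt_one (by norm_num) (by norm_num)).const_mul _
    rw [mul_zero] at h1
    obtain ⟨k, hk⟩ := (h1.eventually (gt_mem_nhds hε)).exists
    refine ⟨k, ?_⟩
    have e : (2 : ℝ) ^ (-(m + (k : ℤ))) = (2 : ℝ) ^ (-m) * (1 / 2 : ℝ) ^ k := by
      rw [neg_add, zpow_add₀ two_ne_zero, one_div, inv_pow, zpow_neg (2 : ℝ) (k : ℤ), zpow_natCast]
    rw [e]
    exact hk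
  have hU : {b : ℕ → E | ∀ j < k, b j = a j} ∈ nhds a := by
    have h2 : {b : ℕ → E | ∀ j < k, b j = a j} = ⋂ j ∈ Finset.range k, {b : ℕ → E | b j = a j} := by
      ext b
      simp
    rw [h2, Filter.biInter_finset_mem]
    intro j _
    have h3 : IsOpen ((fun b : ℕ → E => b j) ⁻¹' {a j}) := (isOpen_discrete {a j}).preimage (continuous_apply j)
    exact h3.mem_nhds rfl
  filter_upwards [hU] with b hb
  rw [dist_eq_norm]
  exact lt_of_le_of_lt (sr_sub m hb) hk

theorem isCompact_ball {E : Type} [Field E] [Finite E] (m : ℤ) : IsCompact (Metric.closedBall (0 : LL E) ((2 : ℝ) ^ (-m))) := by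
  let _ : TopologicalSpace E := ⊥
  have hd : DiscreteTopology E := ⟨rfl⟩
  have h1 : IsCompact (Set.range (sr m : (ℕ → E) → LL E)) := isCompact_range (continuous_sr m)
  refine h1.of_isClosed_subset Metric.isClosed_closedBall ?_
  intro x hx
  rw [mem_closedBall_zero_iff, norm_le] at hx
  exact exists_sr hx

instance (E : Type) [Field E] [Finite E] : ProperSpace (LL E) := by
  refine ProperSpace.of_seq_closedBall (x := (0 : LL E)) (r := fun k : ℕ => (2 : ℝ) ^ (-(-(k : ℤ)))) (l := Filter.atTop) ?_ ?_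
  · have h1 : Filter.Tendsto (fun k : ℕ => (2 : ℝ) ^ k) Filter.atTop Filter.atTop :=
      tendsto_pow_atTop_atTop_of_one_lt one_lt_two
    refine h1.congr fun k => ?_
    rw [neg_neg, zpow_natCast]
  · exact Filter.Eventually.of_forall fun k => isCompact_ball (-(k : ℤ))

end Pool.Agent.H92.LG
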