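import Pool.Agent.H98.RH.Defs
import Pool.Agent.H9.XM.Car
import Pool.Agent.H65.NT.Net
import Pool.Agent.H92.LG.Loc

/-!
# [H92 LG CoreS] interface between CORE (helper75) and GLUE (helper92)

Norms are functions `b : (Fin n → LL E) → ℝ≥0` with `IsNrm b`; `σ j ∈ GL n (LL E)` acts on columns. `Adp B α b`: the rows of `B`
are an orthogonal basis for the norm `b` which is a basis of the standard lattice, `α` are the (antitone) values.
`IsSig k b s`: `s` is the norm `σ_k(b)` with respect to the standard lattice, `s = max |x i| min (α i / α k) 1`.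
The theorem `core` is Pool.Agent.H10.BR.core.
-/

set_option autoImplicit false

namespace Pool.Agent.H92.LG

open Pool.Agent.H54.TT Pool.Agent.H98.RH Pool.Agent.H9.XM Pool.Agent.H65.NT
open scoped NNReal

section

variable {F : Type} [Field F] {v : F → ℤ} (hv : IsDV v)

/-- the translate of a module by a matrix -/
noncomputable def gm {n : ℕ} (g : GL (Fin n) F) (Λ : Submodule (Ov hv) (Fin n → F)) : Submodule (Ov hv) (Fin n → F) :=
  Λ.map ((Matrix.mulVecLin g.val).restrictScalars (Ov hv))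

/-- the entries of `g` and of its inverse have valuation at least `- R` -/
def Bdm (R : ℕ) {n : ℕ} (v : F → ℤ) (g : GL (Fin n) F) : Prop :=
  ∀ i j, Ge v (-(R : ℤ)) (g.val i j) ∧ Ge v (-(R : ℤ)) ((g⁻¹).val i j)

end

/-- the value of a word -/
def wd {H J : Type} [Monoid H] {M : ℕ} (σ : J → H) (m : Fin M → J) : H := (List.ofFn fun i => σ (m i)).prod

section

variable {K : Type} [NormedField K] {n : ℕ}

/-- orthogonal basis of the standard lattice for the norm `b`, with the values `α` -/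
structure Adp (B : Matrix (Fin n) (Fin n) K) (α : Fin n → ℝ≥0) (b : (Fin n → K) → ℝ≥0) : Prop where
  go : GO B
  pos : ∀ i, 0 < α i
  anti : ∀ i j, i ≤ j → α j ≤ α i
  eq : ∀ x : Fin n → K, b (Matrix.vecMul x B) = Finset.univ.sup fun i => ‖x i‖₊ * α i

/-- the norm `σ_k(b)` -/
def IsSig (k : Fin n) (b s : (Fin n → K) → ℝ≥0) : Prop :=
  ∃ (B : Matrix (Fin n) (Fin n) K) (α : Fin n → ℝ≥0), Adp B α b ∧
    ∀ x : Fin n → K, s (Matrix.vecMul x B) = Finset.univ.sup fun i => ‖x i‖₊ * min (α i / α k) 1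

/-- the norms `b` and `b'` are close -/
def Close (δ : ℝ≥0) (b b' : (Fin n → K) → ℝ≥0) : Prop :=
  ∀ (k : Fin n) (s s' : (Fin n → K) → ℝ≥0), IsSig k b s → IsSig k b' s' → ∀ y : Fin n → K, (∀ i, ‖y i‖₊ ≤ 1) →
    s y ≤ s' y + δ ∧ s' y ≤ s y + δ

end

/-- what the core gives for one place and the matrices `σ j`: strong and weak regions and windows of regime `t` -/
structure CoreOut {E : Type} [Field E] {n : ℕ} {J : Type} (σ : J → GL (Fin n) (LL E)) {Reg : Type} (r : Reg → ℕ) (R' κ c : ℕ)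
    {M : ℕ} (T : Set (Pool.Agent.H98.RH.LT (Fin M → J))) (St Wk : Reg → ((Fin n → LL E) → ℝ≥0) → Prop)
    (f : ∀ t : Reg, ((Fin n → LL E) → ℝ≥0) → (Fin (r t + 1) → ℤ) → Submodule (Ov (isDV_od E)) (Fin n → LL E))
    (δ : ℝ≥0) : Prop where
  strong : ∀ b, IsNrm b → ∃ t, St t b
  stab : ∀ t b0 b b' (j : J) (a : ℝ≥0), IsNrm b0 → IsNrm b → St t b0 → Close δ b0 b → 0 < a →
    (∀ y, b' y = a * b ((σ j).val.mulVec y)) → Wk t b' ∧ ∃ d : Fin (r t + 1) → ℤ, Near R' d 0 ∧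
      ∀ p, Near (c - R') p 0 → gm (isDV_od E) (σ j) (f t b' p) = f t b0 (p + d)
  inj : ∀ t b, IsNrm b → Wk t b → ∀ p q, Near c p 0 → Near c q 0 → f t b p = f t b q → p = q
  term : ∀ t b, IsNrm b → Wk t b → ∀ p, Near c p 0 → ∀ π : (LL E)ˣ, od E π = 1 →
    ∃ m ∈ T, f t b p = ev (isDV_od E) π (wd σ) m
  fin : {Λ | ∃ t b p, IsNrm b ∧ Wk t b ∧ Near c p 0 ∧ Λ = f t b p}.Finite
  card : {Λ | ∃ t b p, IsNrm b ∧ Wk t b ∧ Near c p 0 ∧ Λ = f t b p}.ncard ≤ 2 ^ (c ^ κ)

end Pool.Agent.H92.LG
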