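import Pool.Agent.H92.LG.CoreS
import Pool.Agent.H76.LN.Defs

/-!
# [H92 LG DicA] terms, change of symbols, matrices

`lm φ`: change of the symbols of a term. `ev_lm`, `ev_gm`: induction on the term; the image of a supremum, an infimum (injective
map: `Submodule.map_inf`), a multiple. `wd_cons`: `List.ofFn_succ`. `ev_unif`: the module `π ^ k Λ` depends only on `v π`
(`π ^ k = u π' ^ k` with `v u = 0`, and `u Λ = Λ` because `u` and `u⁻¹` are in the valuation ring).
`lm_inj`: `LM hv g = LM hv h ↔ g⁻¹ h ∈ GL_n(O)`: `LM (g h) = gm g (LM h)`; `g L0 = L0` iff `g` and `g⁻¹` have entries in `O`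
(columns = images of the unit vectors), and then `v (det g) = 0`; conversely `GOv` is a group.
-/

set_option autoImplicit false

namespace Pool.Agent.H92.LG

open Pool.Agent.H54.TT Pool.Agent.H98.RH Pool.Agent.H9.XM Pool.Agent.H76.LN

/-- change of the symbols -/
def lm {H H' : Type} (φ : H → H') : Pool.Agent.H98.RH.LT H → Pool.Agent.H98.RH.LT H'
  | LT.sym h => LT.sym (φ h)
  | LT.sc k t => LT.sc k (lm φ t)
  | LT.sum t t' => LT.sum (lm φ t) (lm φ t')
  | LT.inf t t' => LT.inf (lm φ t) (lm φ t')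

theorem wd_cons {H J : Type} [Monoid H] {M : ℕ} (σ : J → H) (j : J) (m : Fin M → J) :
    wd σ (Fin.cons j m : Fin (M + 1) → J) = σ j * wd σ m := by
  unfold wd
  rw [List.ofFn_succ, List.prod_cons]
  rfl

section

variable {F : Type} [Field F] {v : F → ℤ} (hv : IsDV v) {n : ℕ}

private theorem map_smul_le {π π' : Fˣ} (h : v π = v π') (k : ℤ) (Λ : Submodule (Ov hv) (Fin n → F)) :
    Λ.map (((LinearMap.lsmul F (Fin n → F)) ((π ^ k : Fˣ) : F)).restrictScalars (Ov hv)) ≤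
      Λ.map (((LinearMap.lsmul F (Fin n → F)) ((π' ^ k : Fˣ) : F)).restrictScalars (Ov hv)) := by
  have h0 : v ((π * π'⁻¹ : Fˣ) : F) = 0 := by
    rw [Units.val_mul, hv.mul _ _ π.ne_zero π'⁻¹.ne_zero, Units.val_inv_eq_inv_val, hv.inv π'.ne_zero, h]
    omega
  have h1 : ((π * π'⁻¹ : Fˣ) : F) ∈ Ov hv := fun _ => h0.ge
  have h2 : (((π * π'⁻¹)⁻¹ : Fˣ) : F) ∈ Ov hv := by
    intro _
    rw [Units.val_inv_eq_inv_val, hv.inv (π * π'⁻¹).ne_zero, h0]
    exact le_refl _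
  have h3 : (((π * π'⁻¹) ^ k : Fˣ) : F) ∈ Ov hv := by
    cases k with
    | ofNat m =>
      rw [Int.ofNat_eq_natCast, zpow_natCast, Units.val_pow_eq_pow_val]
      exact (Ov hv).pow_mem h1 m
    | negSucc m =>
      rw [zpow_negSucc, ← inv_pow, Units.val_pow_eq_pow_val]
      exact (Ov hv).pow_mem h2 (m + 1)
  rintro _ ⟨x, hx, rfl⟩
  refine ⟨(⟨(((π * π'⁻¹) ^ k : Fˣ) : F), h3⟩ : Ov hv) • x, Λ.smul_mem _ hx, ?_⟩
  show ((π' ^ k : Fˣ) : F) • ((((π * π'⁻¹) ^ k : Fˣ) : F) • x) = ((π ^ k : Fˣ) : F) • x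
  rw [smul_smul, ← Units.val_mul, ← mul_zpow, mul_comm π' (π * π'⁻¹), inv_mul_cancel_right]

theorem ev_lm (π : Fˣ) {H H' : Type} (φ : H → H') (ρ : H' → GL (Fin n) F) (t : Pool.Agent.H98.RH.LT H) :
    ev hv π ρ (lm φ t) = ev hv π (fun h => ρ (φ h)) t := by
  induction t with
  | sym h => rfl
  | sc k t ih =>
    show (ev hv π ρ (lm φ t)).map _ = (ev hv π (fun h => ρ (φ h)) t).map _
    rw [ih]
  | sum t t' ih ih' =>
    show ev hv π ρ (lm φ t) ⊔ ev hv π ρ (lm φ t') = ev hv π (fun h => ρ (φ h)) t ⊔ ev hv π (fun h => ρ (φ h)) t'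
    rw [ih, ih']
  | inf t t' ih ih' =>
    show ev hv π ρ (lm φ t) ⊓ ev hv π ρ (lm φ t') = ev hv π (fun h => ρ (φ h)) t ⊓ ev hv π (fun h => ρ (φ h)) t'
    rw [ih, ih']

private theorem gm_gm (g h : GL (Fin n) F) (Λ : Submodule (Ov hv) (Fin n → F)) : gm hv g (gm hv h Λ) = gm hv (g * h) Λ := by
  unfold gm
  rw [← Submodule.map_comp]
  refine congrArg (fun f => Submodule.map f Λ) (LinearMap.ext fun x => ?_)
  show g.val.mulVec (h.val.mulVec x) = (g * h).val.mulVec x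
  rw [Matrix.mulVec_mulVec, Units.val_mul]

private theorem gm_one (Λ : Submodule (Ov hv) (Fin n → F)) : gm hv (1 : GL (Fin n) F) Λ = Λ := by
  have h1 : ((Matrix.mulVecLin (1 : GL (Fin n) F).val).restrictScalars (Ov hv)) = LinearMap.id := by
    refine LinearMap.ext fun x => ?_
    show (1 : GL (Fin n) F).val.mulVec x = x
    rw [Units.val_one, Matrix.one_mulVec]
  unfold gm
  rw [h1, Submodule.map_id]

theorem gm_LM (g h : GL (Fin n) F) : gm hv g (LM hv h) = LM hv (g * h) :=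
  gm_gm hv g h (L0 hv n)

private theorem inj_mulVec (g : GL (Fin n) F) :
    Function.Injective ((Matrix.mulVecLin g.val).restrictScalars (Ov hv) : (Fin n → F) →ₗ[Ov hv] (Fin n → F)) := by
  intro x y hxy
  have h1 : g.val.mulVec x = g.val.mulVec y := hxy
  have h2 : ∀ z : Fin n → F, (g⁻¹).val.mulVec (g.val.mulVec z) = z := by
    intro z
    rw [Matrix.mulVec_mulVec, ← Units.val_mul, inv_mul_cancel, Units.val_one, Matrix.one_mulVec]
  rw [← h2 x, h1, h2]

theorem ev_gm (π : Fˣ) {H : Type} (g : GL (Fin n) F) (ρ : H → GL (Fin n) F) (t : Pool.Agent.H98.RH.LT H) :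
    gm hv g (ev hv π ρ t) = ev hv π (fun h => g * ρ h) t := by
  induction t with
  | sym h => exact gm_LM hv g (ρ h)
  | sc k t ih =>
    show gm hv g ((ev hv π ρ t).map _) = (ev hv π (fun h => g * ρ h) t).map _
    rw [← ih]
    unfold gm
    rw [← Submodule.map_comp, ← Submodule.map_comp]
    refine congrArg (fun f => Submodule.map f (ev hv π ρ t)) (LinearMap.ext fun x => ?_)
    show g.val.mulVec (((π ^ k : Fˣ) : F) • x) = ((π ^ k : Fˣ) : F) • g.val.mulVec x
    rw [Matrix.mulVec_smul]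
  | sum t t' ih ih' =>
    show gm hv g (ev hv π ρ t ⊔ ev hv π ρ t') = ev hv π (fun h => g * ρ h) t ⊔ ev hv π (fun h => g * ρ h) t'
    rw [← ih, ← ih']
    unfold gm
    rw [Submodule.map_sup]
  | inf t t' ih ih' =>
    show gm hv g (ev hv π ρ t ⊓ ev hv π ρ t') = ev hv π (fun h => g * ρ h) t ⊓ ev hv π (fun h => g * ρ h) t'
    rw [← ih, ← ih']
    unfold gm
    rw [Submodule.map_inf _ (inj_mulVec hv g)]

theorem ev_unif {π π' : Fˣ} (h : v π = v π') {H : Type} (ρ : H → GL (Fin n) F) (t : Pool.Agent.H98.RH.LT H) :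
    ev hv π ρ t = ev hv π' ρ t := by
  induction t with
  | sym h => rfl
  | sc k t ih =>
    show (ev hv π ρ t).map _ = (ev hv π' ρ t).map _
    rw [ih]
    exact le_antisymm (map_smul_le hv h k _) (map_smul_le hv h.symm k _)
  | sum t t' ih ih' =>
    show ev hv π ρ t ⊔ ev hv π ρ t' = ev hv π' ρ t ⊔ ev hv π' ρ t'
    rw [ih, ih']
  | inf t t' ih ih' =>
    show ev hv π ρ t ⊓ ev hv π ρ t' = ev hv π' ρ t ⊓ ev hv π' ρ t'
    rw [ih, ih']

private theorem gm_L0_le {k : GL (Fin n) F} (hk : Pool.Agent.H10.RA.GeN v 0 k.val) : gm hv k (L0 hv n) ≤ L0 hv n := by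
  rintro _ ⟨x, hx, rfl⟩ i
  show Ge v 0 (k.val.mulVec x i)
  have h1 : k.val.mulVec x i = ∑ j, k.val i j * x j := rfl
  rw [h1]
  refine Pool.Agent.H10.RA.ge_sum hv _ fun j _ => ?_
  have h2 := ge_mul hv (hk i j) (hx j)
  rwa [add_zero] at h2

private theorem geN_of_gm {k : GL (Fin n) F} (h : gm hv k (L0 hv n) ≤ L0 hv n) : Pool.Agent.H10.RA.GeN v 0 k.val := by
  intro i j
  have h1 : (Pi.single j 1 : Fin n → F) ∈ L0 hv n := by
    intro l
    by_cases hl : l = j
    · subst hl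
      rw [Pi.single_eq_same]
      exact fun _ => hv.one.ge
    · rw [Pi.single_eq_of_ne hl]
      exact ge_zero hv 0
  have h2 : k.val.mulVec (Pi.single j 1) ∈ L0 hv n := h ⟨_, h1, rfl⟩
  have h3 := h2 i
  rw [Matrix.mulVec_single_one] at h3
  exact h3

private theorem gm_L0_iff {k : GL (Fin n) F} : gm hv k (L0 hv n) = L0 hv n ↔ k ∈ GOv n hv := by
  constructor
  · intro h
    have h1 : gm hv k⁻¹ (L0 hv n) = L0 hv n := by
      rw [← h, gm_gm, inv_mul_cancel, gm_one, h]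
    have h2 := geN_of_gm hv h.le
    have h3 := geN_of_gm hv h1.le
    have h4 : ∀ g : GL (Fin n) F, Pool.Agent.H10.RA.GeN v 0 g.val → 0 ≤ v g.det.val := by
      intro g hg
      have h5 := Pool.Agent.H10.RA.ge_det hv hg g.det.ne_zero
      rw [mul_zero] at h5
      exact h5
    have h5 := h4 k h2
    have h6 := h4 k⁻¹ h3
    rw [Pool.Agent.H10.RA.vdet_inv hv] at h6
    exact ⟨h2, by omega⟩
  · intro h
    refine le_antisymm (gm_L0_le hv h.1) ?_
    have h1 := gm_L0_le hv ((GOv n hv).inv_mem h).1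
    intro x hx
    have h2 : gm hv k (gm hv k⁻¹ (L0 hv n)) = L0 hv n := by
      rw [gm_gm, mul_inv_cancel, gm_one]
    rw [← h2] at hx
    exact Submodule.map_mono h1 hx

theorem lm_inj {g h : GL (Fin n) F} : LM hv g = LM hv h ↔ (g : Lt n hv) = (h : Lt n hv) := by
  rw [lt_eq, ← gm_L0_iff hv]
  constructor
  · intro e
    have h1 : gm hv (g⁻¹ * h) (L0 hv n) = gm hv g⁻¹ (LM hv h) := (gm_gm hv g⁻¹ h (L0 hv n)).symm
    rw [h1, ← e, gm_LM, inv_mul_cancel]
    exact gm_one hv _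
  · intro e
    have h1 : LM hv h = gm hv (g * (g⁻¹ * h)) (L0 hv n) := by
      rw [mul_inv_cancel_left]
      rfl
    rw [h1, ← gm_gm, e]
    rfl

end

end Pool.Agent.H92.LG
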