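import Pool.Agent.H92.LG.Sys

/-!
# [H92 LG Cov] a system of windows at the base point gives a cover

Put `Rg t g = {x | g⁻¹ • x ∈ Wk t}`, `w t g x p = g • f t (g⁻¹ • x) p`, `Y` = the set of `BSys.fin`. `WinSysB`: `rg_smul`, `equiv`:
`(g h)⁻¹ g x = h⁻¹ x`; `inj` from `BSys.inj`; `hull` for `h := g⁻¹`. `InnerB` at `(g, x)`: `BSys.near` at the point `g⁻¹ • x`
gives `U'`; `U = {y | g⁻¹ • y ∈ U'}`; by density (`B` dense) there is `b1 ∈ U'` with `b1 ∈ B`, so `b1 ∈ St t` for some `t`; `b0 = g • b1` (and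
`b1 ∈ Wk t`: if `γ j = 1` for some `j` this is `near` for `b = b1`). For `b ∈ U`, `b ∈ B`, `s = γ j`: `(g s)⁻¹ • b = s⁻¹ • g⁻¹ • b`.
Then `cover_winB` (`c t = c`, `Y t = Y`), with the `c0` from there.
-/

set_option autoImplicit false

namespace Pool.Agent.H92.LG

open Pool.Agent.H65.NT Pool.Agent.H2.WN Pool.Agent.H76.GT Pool.Agent.H98.FJ

section

variable {G X Ob : Type} [Group G] [MulAction G X] [MulAction G Ob]

/-- the region of the element `g` -/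
private def rg (W : Set X) (g : G) : Set X := {x | g⁻¹ • x ∈ W}

/-- the window for the element `g` -/
private def wd {n : ℕ} (f : X → (Fin n → ℤ) → Ob) (g : G) (x : X) (p : Fin n → ℤ) : Ob := g • f (g⁻¹ • x) p

private theorem inv_mul_smul (g h : G) (x : X) : (g * h)⁻¹ • x = h⁻¹ • g⁻¹ • x := by
  rw [mul_inv_rev, mul_smul]

private theorem winSysB_wd {B : Set X} (hB : ∀ (g : G) (x : X), x ∈ B → g • x ∈ B) {n c : ℕ} {Y : Set Ob}
    {W : Set X} {f : X → (Fin n → ℤ) → Ob} (hW : W ⊆ B) (hi : ∀ b ∈ W, InjW c (f b))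
    (hY : ∀ b ∈ W, ∀ p, Near c p 0 → f b p ∈ Y) : WinSysB B n c Y (rg (G := G) W) (wd f) := by
  refine ⟨fun g x hx => ?_, fun g h x hx => ?_, fun g h x hx p hp => ?_, fun g x hx p q hp hq e => ?_,
    fun g x hx => ⟨g⁻¹, fun p hp => ?_⟩⟩
  · have h1 := hB g _ (hW hx)
    rwa [smul_inv_smul] at h1
  · show (g * h)⁻¹ • g • x ∈ W
    rw [inv_mul_smul, inv_smul_smul]
    exact hx
  · show (g * h) • f ((g * h)⁻¹ • g • x) p = g • h • f (h⁻¹ • x) p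
    rw [inv_mul_smul, inv_smul_smul, mul_smul]
  · exact hi _ hx p q hp hq (smul_left_cancel g e)
  · show g⁻¹ • g • f (g⁻¹ • x) p ∈ Y
    rw [inv_smul_smul]
    exact hY _ hx p hp

end

theorem cover_of_sys {C : (G : Type) → [Group G] → Prop} (hC : Inherits C) {G Ob : Type} [Group G] [MulAction G Ob]
    (hst : ∀ x : Ob, C (MulAction.stabilizer G x)) {Reg : Type} [Fintype Reg] (r : Reg → ℕ) (q : ℕ)
    (hR : ∀ t, LocRigW C G Ob (r t) q) (R κ : ℕ) :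
    ∃ c0 : ℕ, ∀ c, c0 ≤ c → ∀ (X : Type) [TopologicalSpace X] [MulAction G X] [ContinuousConstSMul G X] (B : Set X), Dense B →
      (∀ (g : G) (x : X), x ∈ B → g • x ∈ B) → ∀ (J : Type) (γ : J → G), (∃ j, γ j = 1) → ∀ (St Wk : Reg → Set X)
      (f : ∀ t : Reg, X → (Fin (r t) → ℤ) → Ob), BSys B γ r R κ c St Wk f →
      ∃ U : Set (Set (G × X)), IsCover C (∑ t, (q + 3 ^ (r t))) (Set.range γ) U := by
  obtain ⟨c0, hc0⟩ := cover_winB hC (ι := Reg) (fun _ => Ob) (fun _ x => hst x) r q hR R κ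
  refine ⟨c0, fun c hc X _ _ _ B hB hB' J γ hγ St Wk f hS => ?_⟩
  obtain ⟨j0, hj0⟩ := hγ
  refine hc0 (fun _ => c) (fun _ => hc)
    (fun _ => {y | ∃ t, ∃ b ∈ Wk t, ∃ p, Near c p 0 ∧ y = f t b p}) (fun _ => hS.fin) (fun _ => hS.card) X B hB hB'
    (fun t => rg (Wk t)) (fun t => wd (f t)) (fun t => ?_) (Set.range γ) ⟨γ j0, j0, rfl⟩ (fun g x => ?_)
  · exact winSysB_wd hB' (hS.sub t) (hS.inj t) (fun b hb p hp => ⟨t, b, hb, p, hp, rfl⟩)
  · obtain ⟨U', hU', hxU', hn⟩ := hS.near (g⁻¹ • x)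
    obtain ⟨b1, hb1U, hb1B⟩ := hB.inter_open_nonempty U' hU' ⟨g⁻¹ • x, hxU'⟩
    obtain ⟨t, ht⟩ := hS.strong b1 hb1B
    have hb1W : b1 ∈ Wk t := by
      have h1 := (hn t b1 hb1U hb1B ht b1 hb1U hb1B j0).1
      rwa [hj0, inv_one, one_smul] at h1
    refine ⟨t, (fun y : X => g⁻¹ • y) ⁻¹' U', hU'.preimage (continuous_const_smul g⁻¹), hxU', g • b1, ?_, ?_⟩
    · show g⁻¹ • g • b1 ∈ Wk t
      rw [inv_smul_smul]
      exact hb1W
    · rintro b hb hbB s ⟨j, rfl⟩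
      obtain ⟨h1, d, hd, h2⟩ := hn t b1 hb1U hb1B ht (g⁻¹ • b) hb (hB' _ _ hbB) j
      refine ⟨?_, d, hd, fun i hi => ?_⟩
      · show (g * γ j)⁻¹ • b ∈ Wk t
        rw [inv_mul_smul]
        exact h1
      · show (g * γ j) • f t ((g * γ j)⁻¹ • b) i = g • f t (g⁻¹ • g • b1) (i + d)
        rw [inv_mul_smul, inv_smul_smul, mul_smul, h2 i hi]

end Pool.Agent.H92.LG
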