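import Pool.Agent.H76.LN.Defs
import Pool.Agent.H9.XM.HonA
import Mathlib.Topology.Algebra.ConstMulAction

/-!
# [H92 LG Act] the action of a group of projective matrices through a ring homomorphism

`SA n A`: the matrices of determinant one with entries in the subring `A`. `mp f : SA n A →* GL n L`: apply `f : A →+* L` to the
entries. `ct`: the contragredient `g ↦ (g⁻¹)ᵀ`.

PROOFS. `SA`: `(g⁻¹).val = adjugate g.val`; write `g.val` as the image of a matrix over `A` (`RingHom.map_adjugate`,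
`RingHom.map_det` for `A.subtype`). `mp` = `toGL ∘ SpecialLinearGroup.map f ∘` (the lift to `A`).
`exists_act`: for `Γ ≤ SA n A` the homomorphism `Γ → Equiv.Perm (Xm n L)`, `g ↦ (ξ ↦ ct (mp f g) • ξ)` (`MulAction.toPermHom`) is trivial
on the elements with `ps n F g = 1`: `ps_eq_one`: `g.val = c • 1`, `c ∈ A` (`n > 0`), `(mp f g).val = f c • 1`, `ct` of it is again a scalar
matrix, `smul_scalar` (with `h = 1`). `Γ → Γ.map (ps n F)` is surjective (`MonoidHom.subgroupMap_surjective`), so the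
homomorphism factors (`MonoidHom.liftOfSurjective`).
-/

set_option autoImplicit false

namespace Pool.Agent.H92.LG

open Pool.Agent.H76.LN Pool.Agent.H9.XM

section

variable {F : Type} [Field F]

/-- the matrices with entries in `A` -/
def SA (n : ℕ) (A : Subring F) : Subgroup (SLn n F) where
  carrier := {g | ∀ i j, g.val i j ∈ A}
  mul_mem' := by
    intro g h hg hh i j
    show (g.val * h.val) i j ∈ A
    rw [Matrix.mul_apply]
    exact A.sum_mem fun k _ => A.mul_mem (hg i k) (hh k j)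
  one_mem' := by
    intro i j
    show (1 : Matrix (Fin n) (Fin n) F) i j ∈ A
    rw [Matrix.one_apply]
    split_ifs
    · exact A.one_mem
    · exact A.zero_mem
  inv_mem' := by
    intro g hg i j
    have h1 : g.val = (Matrix.of fun i j => (⟨g.val i j, hg i j⟩ : A)).map A.subtype := by
      ext i j
      rfl
    show (g⁻¹).val i j ∈ A
    rw [Matrix.SpecialLinearGroup.coe_inv, h1, ← RingHom.mapMatrix_apply, ← RingHom.map_adjugate]
    exact Subtype.property _

theorem mem_SA {n : ℕ} {A : Subring F} {g : SLn n F} : g ∈ SA n A ↔ ∀ i j, g.val i j ∈ A := Iff.rfl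

/-- the lift to the subring -/
noncomputable def toA (n : ℕ) (A : Subring F) : SA n A →* Matrix.SpecialLinearGroup (Fin n) A where
  toFun g := ⟨Matrix.of fun i j => (⟨g.1.val i j, g.2 i j⟩ : A), by
    have h1 := g.1.2
    have h2 : g.1.val = A.subtype.mapMatrix (Matrix.of fun i j => (⟨g.1.val i j, g.2 i j⟩ : A)) := by
      ext i j
      rfl
    rw [h2, ← RingHom.map_det] at h1
    exact Subtype.ext h1⟩
  map_one' := by
    refine Subtype.ext (Matrix.ext fun i j => Subtype.ext ?_)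
    show (1 : Matrix (Fin n) (Fin n) F) i j = ((1 : Matrix (Fin n) (Fin n) A) i j : A).1
    rw [Matrix.one_apply, Matrix.one_apply]
    split_ifs <;> rfl
  map_mul' g h := by
    refine Subtype.ext (Matrix.ext fun i j => Subtype.ext ?_)
    show (g.1.val * h.1.val) i j = (((Matrix.of fun i j => (⟨g.1.val i j, g.2 i j⟩ : A)) *
      (Matrix.of fun i j => (⟨h.1.val i j, h.2 i j⟩ : A))) i j : A).1
    rw [Matrix.mul_apply, Matrix.mul_apply, AddSubmonoidClass.coe_finsetSum]
    rfl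

/-- apply the ring homomorphism to the entries -/
noncomputable def mp {n : ℕ} {A : Subring F} {L : Type} [Field L] (f : A →+* L) : SA n A →* GL (Fin n) L :=
  (Matrix.SpecialLinearGroup.toGL).comp ((Matrix.SpecialLinearGroup.map f).comp (toA n A))

theorem mp_apply {n : ℕ} {A : Subring F} {L : Type} [Field L] (f : A →+* L) (g : SA n A) (i j : Fin n) :
    (mp f g).val i j = f ⟨g.1.val i j, g.2 i j⟩ := rfl

end

/-- the contragredient -/
noncomputable def ct {n : ℕ} {K : Type} [Field K] : GL (Fin n) K →* GL (Fin n) K where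
  toFun g := ⟨Matrix.transpose (g⁻¹).val, Matrix.transpose g.val, by rw [← Matrix.transpose_mul, ← Units.val_mul, mul_inv_cancel, Units.val_one,
    Matrix.transpose_one], by rw [← Matrix.transpose_mul, ← Units.val_mul, inv_mul_cancel, Units.val_one, Matrix.transpose_one]⟩
  map_one' := Units.ext (by
    show Matrix.transpose ((1 : GL (Fin n) K)⁻¹).val = 1
    rw [inv_one, Units.val_one, Matrix.transpose_one])
  map_mul' g h := Units.ext (by
    show Matrix.transpose ((g * h)⁻¹).val = Matrix.transpose (g⁻¹).val * Matrix.transpose (h⁻¹).val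
    rw [mul_inv_rev, Units.val_mul, Matrix.transpose_mul])

theorem ct_val {n : ℕ} {K : Type} [Field K] (g : GL (Fin n) K) : (ct g).val = Matrix.transpose (g⁻¹).val := rfl

/-- the action on the space -/
theorem exists_act {F : Type} [Field F] {n : ℕ} (hn : 0 < n) {A : Subring F} {L : Type} [NormedField L] [IsUltrametricDist L]
    [ProperSpace L] (f : A →+* L) {Γ : Subgroup (SLn n F)} (hΓ : Γ ≤ SA n A) :
    ∃ Ψ : Γ.map (ps n F) →* Equiv.Perm (Xm n L), ∀ (g : SLn n F) (hg : g ∈ Γ) (ξ : Xm n L),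
      Ψ ⟨ps n F g, Subgroup.mem_map_of_mem _ hg⟩ ξ = ct (mp f ⟨g, hΓ hg⟩) • ξ := by
  let Φ : Γ →* Equiv.Perm (Xm n L) :=
    (MulAction.toPermHom (GL (Fin n) L) (Xm n L)).comp (ct.comp ((mp f).comp (Subgroup.inclusion hΓ)))
  have hΦ : ∀ (g : Γ) (ξ : Xm n L), Φ g ξ = ct (mp f ⟨g.1, hΓ g.2⟩) • ξ := fun g ξ => rfl
  have hker : ((ps n F).subgroupMap Γ).ker ≤ Φ.ker := by
    intro g hg
    rw [MonoidHom.mem_ker] at hg ⊢
    have h1 : ps n F g.1 = 1 := congrArg Subtype.val hg
    obtain ⟨c, hc⟩ := ps_eq_one.1 h1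
    have hcA : c ∈ A := by
      have h2 := hΓ g.2 ⟨0, hn⟩ ⟨0, hn⟩
      rw [hc, Matrix.smul_apply, Matrix.one_apply_eq, smul_eq_mul, mul_one] at h2
      exact h2
    have h3 : (mp f ⟨g.1, hΓ g.2⟩).val = f ⟨c, hcA⟩ • (1 : Matrix (Fin n) (Fin n) L) := by
      ext i j
      rw [mp_apply, Matrix.smul_apply, Matrix.one_apply, smul_eq_mul]
      split_ifs with hij
      · rw [mul_one]
        refine congrArg f (Subtype.ext ?_)
        show g.1.val i j = c
        rw [hc, hij, Matrix.smul_apply, Matrix.one_apply_eq, smul_eq_mul, mul_one]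
      · rw [mul_zero]
        have h4 : (⟨g.1.val i j, hΓ g.2 i j⟩ : A) = 0 := by
          refine Subtype.ext ?_
          show g.1.val i j = 0
          rw [hc, Matrix.smul_apply, Matrix.one_apply_ne hij, smul_zero]
        rw [h4, map_zero]
    have h0 : f ⟨c, hcA⟩ ≠ 0 := by
      intro h5
      rw [h5, zero_smul] at h3
      have h6 : (mp f ⟨g.1, hΓ g.2⟩).val * ((mp f ⟨g.1, hΓ g.2⟩)⁻¹).val = 1 := (mp f ⟨g.1, hΓ g.2⟩).mul_inv
      rw [h3, zero_mul] at h6
      have h7 := congrFun (congrFun h6 ⟨0, hn⟩) ⟨0, hn⟩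
      rw [Matrix.zero_apply, Matrix.one_apply_eq] at h7
      exact zero_ne_one h7
    have h8 : (ct (mp f ⟨g.1, hΓ g.2⟩)).val = (f ⟨c, hcA⟩)⁻¹ • (1 : GL (Fin n) L).val := by
      rw [ct_val]
      have h9 : ((mp f ⟨g.1, hΓ g.2⟩)⁻¹).val = (f ⟨c, hcA⟩)⁻¹ • (1 : Matrix (Fin n) (Fin n) L) := by
        have h10 : (mp f ⟨g.1, hΓ g.2⟩).val * ((mp f ⟨g.1, hΓ g.2⟩)⁻¹).val = 1 := (mp f ⟨g.1, hΓ g.2⟩).mul_inv
        rw [h3, Matrix.smul_mul, Matrix.one_mul] at h10
        rw [← h10, smul_smul, inv_mul_cancel₀ h0, one_smul]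
      rw [h9, Matrix.transpose_smul, Matrix.transpose_one, Units.val_one]
    refine Equiv.ext fun ξ => ?_
    rw [hΦ, smul_scalar 1 _ (inv_ne_zero h0) h8, one_smul]
    rfl
  have hsurj : Function.Surjective ((ps n F).subgroupMap Γ) := MonoidHom.subgroupMap_surjective _ _
  refine ⟨((ps n F).subgroupMap Γ).liftOfSurjective hsurj ⟨Φ, hker⟩, fun g hg ξ => ?_⟩
  have h1 : ((ps n F).subgroupMap Γ).liftOfSurjective hsurj ⟨Φ, hker⟩ ((ps n F).subgroupMap Γ ⟨g, hg⟩) = Φ ⟨g, hg⟩ :=
    MonoidHom.liftOfRightInverse_comp_apply _ _ (Function.rightInverse_surjInv hsurj) ⟨Φ, hker⟩ ⟨g, hg⟩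
  have h2 : (ps n F).subgroupMap Γ ⟨g, hg⟩ = ⟨ps n F g, Subgroup.mem_map_of_mem _ hg⟩ := rfl
  rw [h2] at h1
  rw [h1]
  exact hΦ ⟨g, hg⟩ ξ

end Pool.Agent.H92.LG
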