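import Pool.Agent.H92.LG.DicA
import Pool.Agent.H92.LG.Act
import Pool.Agent.H98.RH.Stm

/-!
# [H92 LG Dic] translation of lattices

`exists_dic`: let `π : F` have valuation one, `H = Fin (M + 1) → J`, `ρ = wd (sg ∘ σ)`, `T' = {lm (Fin.cons j) m | j, m ∈ T}`. `dict` gives `S0`
and `Bm`; `S = S0 ∪` the entries of all `σ j` and of their inverses `∪ {π} ∪ {det (Bm m) | m ∈ T'}` (`Pres` is monotone in `S`). For `f` let
`π0 = f π` and `B' m` = image of `Bm m` (`Matrix.GeneralLinearGroup.mkOfDetNeZero`: the determinant of the image is the image of the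
determinant, not zero by `Pres.ne`), `B' m = 1` outside `T'`. Now `dict` compares the values of the terms of `T'` over `v` and `w`.
`ev hw π' (wd σ') m = ev hw π0 (wd σ') m` (`ev_unif`) and it is `ev hw π0 (wd σ') (lm (Fin.cons j1) m)`, where `σ j1 = 1` (`ev_lm`, `wd_cons`).
`tv Λ`: if `Λ = ev hw π0 (wd σ') m'` with `m' ∈ T'` then the class of `Bm m'` (choice; independent of the choice because
inclusions of `ev` are the same over `v` and `w`, and `lm_inj`). Injectivity: the same. Translation: `m, m2 ∈ T`, `σ' j (ev m) = ev m2`: the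
terms `lm (Fin.cons j) m` and `lm (Fin.cons j1) m2` have the same value over `w` (`ev_gm`), hence over `v`; over `v` the value of the first
one is `gm (sg (σ j))` of the value of `lm (Fin.cons j1) m` (`gm_LM`, `lm_inj`).
-/

set_option autoImplicit false

namespace Pool.Agent.H92.LG

open Pool.Agent.H54.TT Pool.Agent.H98.RH Pool.Agent.H9.XM Pool.Agent.H76.LN

private theorem map_wd {H H' J : Type} [Monoid H] [Monoid H'] (φ : H →* H') {M : ℕ} (σ : J → H) (m : Fin M → J) :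
    φ (wd σ m) = wd (fun j => φ (σ j)) m := by
  unfold wd
  rw [map_list_prod, List.map_ofFn]
  rfl

private theorem pres_ge {F : Type} [Field F] {v : F → ℤ} {L : Type} [Field L] {w : L → ℤ} {S : Finset F} {A : Subring F} {f : A →+* L}
    (h : Pres v w S A f) {k : ℤ} {x : A} (hx : (x : F) ∈ S) (hk : Ge v k (x : F)) : Ge w k (f x) := by
  intro h0
  have hx0 : (x : F) ≠ 0 := by
    intro h1
    have h2 : x = 0 := Subtype.ext h1
    rw [h2, map_zero] at h0
    exact h0 rfl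
  rw [h.val x hx hx0]
  exact hk hx0

/-- the translation of the lattices -/
theorem exists_dic {F : Type} [Field F] {v : F → ℤ} (hv : IsDV v) {n : ℕ} {J : Type} [Finite J] (σ : J → SLn n F)
    (h1 : ∃ j, σ j = 1) {M : ℕ} (T : Set (Pool.Agent.H98.RH.LT (Fin M → J))) (hT : T.Finite) :
    ∃ S : Finset F, ∀ (A : Subring F) (L : Type) [Field L] (w : L → ℤ) (hw : IsDV w) (f : A →+* L), Pres v w S A f →
      ∃ hA : ∀ j, σ j ∈ SA n A, (∀ R : ℕ, (∀ j, Bdm R v (sg n F (σ j))) → ∀ j, Bdm R w (mp f ⟨σ j, hA j⟩)) ∧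
        ∀ π' : Lˣ, w π' = 1 → ∃ tv : Submodule (Ov hw) (Fin n → L) → Lt n hv,
          (∀ m ∈ T, ∀ m' ∈ T, tv (ev hw π' (wd fun j => mp f ⟨σ j, hA j⟩) m) = tv (ev hw π' (wd fun j => mp f ⟨σ j, hA j⟩) m') →
            ev hw π' (wd fun j => mp f ⟨σ j, hA j⟩) m = ev hw π' (wd fun j => mp f ⟨σ j, hA j⟩) m') ∧
          ∀ j, ∀ m ∈ T, ∀ m' ∈ T, gm hw (mp f ⟨σ j, hA j⟩) (ev hw π' (wd fun j => mp f ⟨σ j, hA j⟩) m) =
              ev hw π' (wd fun j => mp f ⟨σ j, hA j⟩) m' →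
            sg n F (σ j) • tv (ev hw π' (wd fun j => mp f ⟨σ j, hA j⟩) m) = tv (ev hw π' (wd fun j => mp f ⟨σ j, hA j⟩) m') := by
  classical
  obtain ⟨p, hp0, hp1⟩ := hv.unif
  obtain ⟨π, hπe⟩ : ∃ π : Fˣ, (π : F) = p := ⟨Units.mk0 p hp0, rfl⟩
  have hπ : v π = 1 := by rw [hπe]; exact hp1
  obtain ⟨j1, hj1⟩ := h1
  let T' : Set (Pool.Agent.H98.RH.LT (Fin (M + 1) → J)) :=
    {t | ∃ j, ∃ m ∈ T, t = lm (fun h : Fin M → J => (Fin.cons j h : Fin (M + 1) → J)) m}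
  have hT' : T'.Finite := by
    have h2 : T' = ⋃ j : J, (fun m => lm (fun h : Fin M → J => (Fin.cons j h : Fin (M + 1) → J)) m) '' T := by
      ext t
      simp only [T', Set.mem_ofPred_eq, Set.mem_iUnion, Set.mem_image]
      constructor
      · rintro ⟨j, m, hm, rfl⟩
        exact ⟨j, m, hm, rfl⟩
      · rintro ⟨j, m, hm, rfl⟩
        exact ⟨j, m, hm, rfl⟩
    rw [h2]
    exact Set.finite_iUnion fun j => hT.image _
  have hmem : ∀ (j : J), ∀ m ∈ T, lm (fun h : Fin M → J => (Fin.cons j h : Fin (M + 1) → J)) m ∈ T' :=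
    fun j m hm => ⟨j, m, hm, rfl⟩
  let ρ : (Fin (M + 1) → J) → GL (Fin n) F := fun h => wd (fun j => sg n F (σ j)) h
  obtain ⟨S0, Bm, hBm, hD⟩ := dict hv π hπ ρ T' hT'
  have hJ := Fintype.ofFinite J
  let SJ : Finset F := Finset.univ.biUnion fun j : J => Pool.Agent.H25.DI.En (sg n F (σ j))
  let SD : Finset F := hT'.toFinset.image fun t => (Bm t).val.det
  refine ⟨S0 ∪ SJ ∪ {(π : F)} ∪ SD, ?_⟩
  intro A L _ w hw f hP
  have hS0 : Pres v w S0 A f := by
    have hsub : S0 ⊆ S0 ∪ SJ ∪ {(π : F)} ∪ SD := fun x hx => by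
      simp only [Finset.mem_union]
      exact Or.inl (Or.inl (Or.inl hx))
    exact ⟨fun x hx => hP.sub x (hsub hx), fun x hx => hP.ne x (hsub hx), fun x hx => hP.val x (hsub hx)⟩
  have hSJ : ∀ (j : J), ∀ x ∈ Pool.Agent.H25.DI.En (sg n F (σ j)), x ∈ S0 ∪ SJ ∪ {(π : F)} ∪ SD := by
    intro j x hx
    simp only [Finset.mem_union]
    exact Or.inl (Or.inl (Or.inr (Finset.mem_biUnion.2 ⟨j, Finset.mem_univ j, hx⟩)))
  have hSπ : (π : F) ∈ S0 ∪ SJ ∪ {(π : F)} ∪ SD := by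
    simp only [Finset.mem_union]
    exact Or.inl (Or.inr (Finset.mem_singleton_self _))
  have hSD : ∀ t ∈ T', (Bm t).val.det ∈ S0 ∪ SJ ∪ {(π : F)} ∪ SD := by
    intro t ht
    simp only [Finset.mem_union]
    exact Or.inr (Finset.mem_image.2 ⟨t, hT'.mem_toFinset.2 ht, rfl⟩)
  have hA : ∀ j, σ j ∈ SA n A := fun j => mem_SA.2 fun a b =>
    hP.sub _ (hSJ j _ (Pool.Agent.H25.DI.mem_En (sg n F (σ j)) a b))
  refine ⟨hA, ?_, ?_⟩
  · intro R hR j a b
    constructor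
    · rw [mp_apply]
      exact pres_ge hP (hSJ j _ (Pool.Agent.H25.DI.mem_En (sg n F (σ j)) a b)) (hR j a b).1
    · rw [← map_inv, mp_apply]
      have h3 : (((⟨σ j, hA j⟩ : SA n A)⁻¹).1.val a b) = ((sg n F (σ j))⁻¹).val a b := by
        rw [← map_inv]
        rfl
      refine pres_ge hP ?_ ?_
      · show (((⟨σ j, hA j⟩ : SA n A)⁻¹).1.val a b) ∈ _
        rw [h3]
        exact hSJ j _ (Pool.Agent.H25.DI.mem_En' (sg n F (σ j)) a b)
      · show Ge v _ (((⟨σ j, hA j⟩ : SA n A)⁻¹).1.val a b)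
        rw [h3]
        exact (hR j a b).2
  intro π' hπ'
  obtain ⟨-, hBA, hπA, hD2⟩ := hD A L w hw f hS0
  have hf0 : f ⟨π, hπA⟩ ≠ 0 := hP.ne _ hSπ π.ne_zero
  obtain ⟨π0, hπ0e⟩ : ∃ π0 : Lˣ, (π0 : L) = f ⟨π, hπA⟩ := ⟨Units.mk0 _ hf0, rfl⟩
  have hπ0 : w π0 = 1 := by
    rw [hπ0e, hP.val _ hSπ π.ne_zero]
    exact hπ
  obtain ⟨σ', hσ'⟩ : ∃ σ' : J → GL (Fin n) L, σ' = fun j => mp f ⟨σ j, hA j⟩ := ⟨_, rfl⟩
  rw [← hσ']
  have hσ'j : ∀ j, mp f ⟨σ j, hA j⟩ = σ' j := fun j => by rw [hσ']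
  simp only [hσ'j]
  have hσ'1 : σ' j1 = 1 := by
    rw [← hσ'j]
    have h3 : (⟨σ j1, hA j1⟩ : SA n A) = 1 := Subtype.ext hj1
    rw [h3, map_one]
  let ρ' : (Fin (M + 1) → J) → GL (Fin n) L := fun h => wd σ' h
  have hB' : ∀ t, ∃ g : GL (Fin n) L, t ∈ T' → ∀ i j, ∀ x : A, (x : F) = (Bm t).val i j → g.val i j = f x := by
    intro t
    by_cases ht : t ∈ T'
    · obtain ⟨N, hN⟩ := Pool.Agent.H25.DI.Im.exists f (hBA t ht)
      obtain ⟨x, hx, hx'⟩ := hN.det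
      have h3 : N.det ≠ 0 := by
        rw [← hx']
        refine hP.ne x ?_ ?_
        · rw [hx]
          exact hSD t ht
        · rw [hx]
          exact (Bm t).det.ne_zero
      refine ⟨Matrix.GeneralLinearGroup.mkOfDetNeZero N h3, fun _ i j y hy => ?_⟩
      obtain ⟨z, hz, hz'⟩ := hN.apply i j
      show N i j = f y
      rw [← hz', Subtype.ext (hz.trans hy.symm)]
    · exact ⟨1, fun h => absurd h ht⟩
  choose B' hB' using hB'
  have hρ' : ∀ h i j, ∀ x : A, (x : F) = (ρ h).val i j → (ρ' h).val i j = f x := by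
    intro h i j x hx
    let σA : J → SA n A := fun j => ⟨σ j, hA j⟩
    have e1 : ρ' h = mp f (wd σA h) := by
      rw [map_wd (mp f) σA h]
      show wd σ' h = _
      rw [hσ']
    have e2 : ρ h = sg n F (wd σA h).1 := by
      have e3 := map_wd ((sg n F).comp (SA n A).subtype) σA h
      exact e3.symm
    rw [e1, mp_apply]
    refine congrArg f (Subtype.ext ?_)
    show (wd σA h).1.val i j = x
    rw [hx, e2, sg_val]
  obtain ⟨hE, hI⟩ := hD2 π0 ρ' B' (fun x hx => by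
    rw [hπ0e]
    exact congrArg f (Subtype.ext hx.symm)) hρ' (fun t ht => hB' t ht)
  -- comparison of the terms
  have hw1 : ∀ (j : J) (m : Pool.Agent.H98.RH.LT (Fin M → J)),
      ev hw π0 ρ' (lm (fun h : Fin M → J => (Fin.cons j h : Fin (M + 1) → J)) m) = gm hw (σ' j) (ev hw π' (wd σ') m) := by
    intro j m
    rw [ev_lm, ev_unif hw (hπ'.trans hπ0.symm), ev_gm]
    have h3 : (fun h : Fin M → J => ρ' (Fin.cons j h : Fin (M + 1) → J)) = fun h => σ' j * wd σ' h := by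
      funext h
      exact wd_cons σ' j h
    rw [h3]
  have hv1 : ∀ (j : J) (m : Pool.Agent.H98.RH.LT (Fin M → J)),
      ev hv π ρ (lm (fun h : Fin M → J => (Fin.cons j h : Fin (M + 1) → J)) m) =
        gm hv (sg n F (σ j)) (ev hv π (wd fun j => sg n F (σ j)) m) := by
    intro j m
    rw [ev_lm, ev_gm]
    have h3 : (fun h : Fin M → J => ρ (Fin.cons j h : Fin (M + 1) → J)) = fun h => sg n F (σ j) * (wd fun j => sg n F (σ j)) h := by
      funext h
      exact wd_cons (fun j => sg n F (σ j)) j h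
    rw [h3]
  have gone : ∀ {K : Type} [Field K] {u : K → ℤ} (hu : IsDV u) (Λ : Submodule (Ov hu) (Fin n → K)), gm hu 1 Λ = Λ := by
    intro K _ u hu Λ
    unfold gm
    have h3 : (Matrix.mulVecLin ((1 : GL (Fin n) K)).val).restrictScalars (Ov hu) = LinearMap.id := by
      refine LinearMap.ext fun x => ?_
      show ((1 : GL (Fin n) K)).val.mulVec x = x
      rw [Units.val_one, Matrix.one_mulVec]
    rw [h3, Submodule.map_id]
  have hw2 : ∀ m : Pool.Agent.H98.RH.LT (Fin M → J), ev hw π' (wd σ') m =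
      ev hw π0 ρ' (lm (fun h : Fin M → J => (Fin.cons j1 h : Fin (M + 1) → J)) m) := by
    intro m
    rw [hw1, hσ'1, gone]
  have hv2 : ∀ m : Pool.Agent.H98.RH.LT (Fin M → J), ev hv π (wd fun j => sg n F (σ j)) m =
      ev hv π ρ (lm (fun h : Fin M → J => (Fin.cons j1 h : Fin (M + 1) → J)) m) := by
    intro m
    rw [hv1, hj1, map_one, gone]
  have hcls : ∀ t ∈ T', ∀ t' ∈ T', (ev hw π0 ρ' t = ev hw π0 ρ' t' ↔ ((Bm t : GL (Fin n) F) : Lt n hv) = ((Bm t' : GL (Fin n) F) : Lt n hv)) := by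
    intro t ht t' ht'
    rw [← lm_inj hv, ← hBm t ht, ← hBm t' ht']
    constructor
    · intro h
      exact le_antisymm ((hI t ht t' ht').1 h.le) ((hI t' ht' t ht).1 h.ge)
    · intro h
      exact le_antisymm ((hI t ht t' ht').2 h.le) ((hI t' ht' t ht).2 h.ge)
  let tv : Submodule (Ov hw) (Fin n → L) → Lt n hv := fun Λ =>
    if h : ∃ t ∈ T', Λ = ev hw π0 ρ' t then ((Bm h.choose : GL (Fin n) F) : Lt n hv) else ((1 : GL (Fin n) F) : Lt n hv)
  have htv : ∀ t ∈ T', tv (ev hw π0 ρ' t) = ((Bm t : GL (Fin n) F) : Lt n hv) := by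
    intro t ht
    have h : ∃ t' ∈ T', ev hw π0 ρ' t = ev hw π0 ρ' t' := ⟨t, ht, rfl⟩
    show (if h : ∃ t' ∈ T', ev hw π0 ρ' t = ev hw π0 ρ' t' then ((Bm h.choose : GL (Fin n) F) : Lt n hv) else
      ((1 : GL (Fin n) F) : Lt n hv)) = _
    rw [dif_pos h]
    exact ((hcls t ht _ h.choose_spec.1).1 h.choose_spec.2).symm
  refine ⟨tv, ?_, ?_⟩
  · intro m hm m' hm' h
    rw [hw2 m, hw2 m', htv _ (hmem j1 m hm), htv _ (hmem j1 m' hm')] at h
    rw [hw2 m, hw2 m']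
    exact (hcls _ (hmem j1 m hm) _ (hmem j1 m' hm')).2 h
  · intro j m hm m' hm' h
    rw [← hw1, hw2 m', hcls _ (hmem j m hm) _ (hmem j1 m' hm')] at h
    rw [hw2 m, hw2 m', htv _ (hmem j1 m hm), htv _ (hmem j1 m' hm'), ← h]
    show ((sg n F (σ j) * Bm _ : GL (Fin n) F) : Lt n hv) = ((Bm _ : GL (Fin n) F) : Lt n hv)
    rw [← lm_inj hv, ← gm_LM, ← hBm _ (hmem j1 m hm), ← hBm _ (hmem j m hm), hv1 j m, ← hv2 m]

end Pool.Agent.H92.LG
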