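import Pool.Agent.H2.WN.Den
import Mathlib.Data.Fintype.Sigma
import Mathlib.Data.Fintype.BigOperators

/-!
# [H92 LG Sys] systems of windows at the base point of the group

`BSys`: a group `G` acts on the space `X` and on the set `Ob`; `B ⊆ X`; for every regime `t` there are sets `St t`, `Wk t` of
points of `B` and windows `f t b` of rank `r t` for the points `b ∈ Wk t`. `near`: near every point of `X`, if `b0` is in `St t`,
then for all near points `b ∈ B` and all the elements `γ j` the point `(γ j)⁻¹ b` is in `Wk t` and the translate by `γ j` of its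
window is a shift of the window of `b0`.

PROOFS. `mono`: `Near` is monotone, `c - R'' ≤ c - R'`, `2 ^ c ^ κ ≤ 2 ^ c ^ κ'` for `1 ≤ c`.
`pi`: `strong`: choose `t i` for every `i`. `near`: the box of the neighbourhoods `U i` (`isOpen_set_pi Set.finite_univ`); the shift `d` is
`d p = d_i a` for `ix t ⟨i, a⟩ = p` . `inj`: for every `i` the restrictions `fun a => p (ix ⟨i, a⟩)` are equal. `fin`, `card`: the set is
contained in `Set.pi Set.univ` of the sets of the factors; its cardinality is at most the product, `(2 ^ c ^ κ) ^ card I =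
2 ^ (c ^ κ * card I) ≤ 2 ^ c ^ (κ + 1)`.
-/

set_option autoImplicit false

namespace Pool.Agent.H92.LG

open Pool.Agent.H65.NT Pool.Agent.H2.WN

/-- a system of windows at the base point -/
structure BSys {G X Ob : Type} [Group G] [TopologicalSpace X] [MulAction G X] [MulAction G Ob] (B : Set X) {J : Type}
    (γ : J → G) {Reg : Type} (r : Reg → ℕ) (R κ c : ℕ) (St Wk : Reg → Set X) (f : ∀ t : Reg, X → (Fin (r t) → ℤ) → Ob) :
    Prop where
  sub : ∀ t, Wk t ⊆ B
  strong : ∀ b ∈ B, ∃ t, b ∈ St t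
  near : ∀ x : X, ∃ U : Set X, IsOpen U ∧ x ∈ U ∧ ∀ t, ∀ b0 ∈ U, b0 ∈ B → b0 ∈ St t → ∀ b ∈ U, b ∈ B → ∀ j,
    (γ j)⁻¹ • b ∈ Wk t ∧ ∃ d : Fin (r t) → ℤ, Near R d 0 ∧
      ∀ p, Near (c - R) p 0 → γ j • f t ((γ j)⁻¹ • b) p = f t b0 (p + d)
  inj : ∀ t, ∀ b ∈ Wk t, InjW c (f t b)
  fin : {y | ∃ t, ∃ b ∈ Wk t, ∃ p, Near c p 0 ∧ y = f t b p}.Finite
  card : {y | ∃ t, ∃ b ∈ Wk t, ∃ p, Near c p 0 ∧ y = f t b p}.ncard ≤ 2 ^ (c ^ κ)

theorem BSys.mono {G X Ob : Type} [Group G] [TopologicalSpace X] [MulAction G X] [MulAction G Ob] {B : Set X} {J : Type}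
    {γ : J → G} {Reg : Type} {r : Reg → ℕ} {R κ c R' κ' : ℕ} {St Wk : Reg → Set X}
    {f : ∀ t : Reg, X → (Fin (r t) → ℤ) → Ob} (h : BSys B γ r R κ c St Wk f) (hR : R ≤ R') (hκ : κ ≤ κ') (hc : 0 < c) :
    BSys B γ r R' κ' c St Wk f := by
  refine ⟨h.sub, h.strong, fun x => ?_, h.inj, h.fin, ?_⟩
  · obtain ⟨U, hU, hxU, hn⟩ := h.near x
    refine ⟨U, hU, hxU, fun t b0 h1 h2 h3 b h4 h5 j => ?_⟩
    obtain ⟨h6, d, hd, h7⟩ := hn t b0 h1 h2 h3 b h4 h5 j
    exact ⟨h6, d, hd.mono hR, fun p hp => h7 p (hp.mono (Nat.sub_le_sub_left hR c))⟩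
  · exact h.card.trans (Nat.pow_le_pow_right (by norm_num) (Nat.pow_le_pow_right hc hκ))

section

variable {I : Type} [Fintype I] {Reg : I → Type} (r : ∀ i, Reg i → ℕ)

/-- the rank of a tuple of regimes -/
noncomputable def rk (t : ∀ i, Reg i) : ℕ := Fintype.card (Σ i, Fin (r i (t i)))

/-- the numbering of the coordinates -/
noncomputable def ix (t : ∀ i, Reg i) : (Σ i, Fin (r i (t i))) ≃ Fin (rk r t) := Fintype.equivFin _

/-- the part of a position which belongs to `i` -/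
noncomputable def prt (t : ∀ i, Reg i) (i : I) (p : Fin (rk r t) → ℤ) : Fin (r i (t i)) → ℤ := fun a => p (ix r t ⟨i, a⟩)

theorem prt_near {t : ∀ i, Reg i} {a : ℕ} {p q : Fin (rk r t) → ℤ} : Near a p q ↔ ∀ i, Near a (prt r t i p) (prt r t i q) := by
  constructor
  · intro h i k
    exact h (ix r t ⟨i, k⟩)
  · intro h k
    have h1 := h ((ix r t).symm k).1 ((ix r t).symm k).2
    have h2 : ix r t ⟨((ix r t).symm k).1, ((ix r t).symm k).2⟩ = k := (ix r t).apply_symm_apply k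
    unfold prt at h1
    rw [h2] at h1
    exact h1

theorem prt_ext {t : ∀ i, Reg i} {p q : Fin (rk r t) → ℤ} (h : ∀ i, prt r t i p = prt r t i q) : p = q := by
  funext k
  have h1 := congrFun (h ((ix r t).symm k).1) ((ix r t).symm k).2
  have h2 : ix r t ⟨((ix r t).symm k).1, ((ix r t).symm k).2⟩ = k := (ix r t).apply_symm_apply k
  unfold prt at h1
  rw [h2] at h1
  exact h1

theorem exists_prt (t : ∀ i, Reg i) (d : ∀ i, Fin (r i (t i)) → ℤ) : ∃ p : Fin (rk r t) → ℤ, ∀ i, prt r t i p = d i := by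
  refine ⟨fun k => (fun s : Σ i, Fin (r i (t i)) => d s.1 s.2) ((ix r t).symm k), fun i => ?_⟩
  funext a
  show (fun s : Σ i, Fin (r i (t i)) => d s.1 s.2) ((ix r t).symm (ix r t ⟨i, a⟩)) = d i a
  rw [Equiv.symm_apply_apply]

theorem BSys.pi {G : Type} [Group G] {X Ob : I → Type} [∀ i, TopologicalSpace (X i)] [∀ i, MulAction G (X i)]
    [∀ i, MulAction G (Ob i)] {B : ∀ i, Set (X i)} {J : Type} {γ : J → G} {R κ c : ℕ} {St Wk : ∀ i, Reg i → Set (X i)}
    {f : ∀ i (t : Reg i), X i → (Fin (r i t) → ℤ) → Ob i} (h : ∀ i, BSys (B i) γ (r i) R κ c (St i) (Wk i) (f i))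
    (hc : Fintype.card I ≤ c) (hc0 : 0 < c) :
    BSys (X := ∀ i, X i) (Ob := ∀ i, Ob i) {x | ∀ i, x i ∈ B i} γ (rk r) R (κ + 1) c (fun t => {x | ∀ i, x i ∈ St i (t i)})
      (fun t => {x | ∀ i, x i ∈ Wk i (t i)}) (fun t x p i => f i (t i) (x i) (prt r t i p)) := by
  classical
  have hsub : {y : ∀ i, Ob i | ∃ t : ∀ i, Reg i, ∃ b ∈ {x : ∀ i, X i | ∀ i, x i ∈ Wk i (t i)}, ∃ p, Near c p 0 ∧
      y = fun i => f i (t i) (b i) (prt r t i p)} ⊆
      ((Fintype.piFinset fun i => (h i).fin.toFinset : Finset (∀ i, Ob i)) : Set (∀ i, Ob i)) := by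
    rintro y ⟨t, b, hb, p, hp, rfl⟩
    refine Finset.mem_coe.2 (Fintype.mem_piFinset.2 fun i => ?_)
    rw [Set.Finite.mem_toFinset]
    exact ⟨t i, b i, hb i, prt r t i p, (prt_near r).1 hp i, rfl⟩
  refine ⟨fun t x hx i => (h i).sub (t i) (hx i), fun b hb => ?_, fun x => ?_, fun t b hb p q hp hq hpq => ?_, ?_, ?_⟩
  · choose t ht using fun i => (h i).strong (b i) (hb i)
    exact ⟨t, ht⟩
  · choose U hU hxU hn using fun i => (h i).near (x i)
    refine ⟨Set.pi Set.univ U, isOpen_set_pi Set.finite_univ fun i _ => hU i, fun i _ => hxU i, ?_⟩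
    intro t b0 h1 h2 h3 b h4 h5 j
    choose h6 d hd h7 using fun i => hn i (t i) (b0 i) (h1 i (Set.mem_univ i)) (h2 i) (h3 i) (b i) (h4 i (Set.mem_univ i))
      (h5 i) j
    obtain ⟨e, he⟩ := exists_prt r t d
    refine ⟨h6, e, (prt_near r).2 fun i => ?_, fun p hp => ?_⟩
    · rw [he i]
      exact hd i
    · funext i
      have e1 : prt r t i (p + e) = prt r t i p + d i := by
        rw [← he i]
        rfl
      show γ j • f i (t i) ((γ j)⁻¹ • b i) (prt r t i p) = f i (t i) (b0 i) (prt r t i (p + e))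
      rw [e1]
      exact h7 i _ ((prt_near r).1 hp i)
  · refine prt_ext r fun i => ?_
    exact (h i).inj (t i) (b i) (hb i) _ _ ((prt_near r).1 hp i) ((prt_near r).1 hq i) (congrFun hpq i)
  · exact (Finset.finite_toSet _).subset hsub
  · refine (Set.ncard_le_ncard hsub (Finset.finite_toSet _)).trans ?_
    rw [Set.ncard_coe_finset, Fintype.card_piFinset]
    calc ∏ i, (h i).fin.toFinset.card ≤ ∏ _i : I, 2 ^ (c ^ κ) := by
          refine Finset.prod_le_prod' fun i _ => ?_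
          rw [← Set.ncard_eq_toFinset_card _ (h i).fin]
          exact (h i).card
      _ = 2 ^ (c ^ κ * Fintype.card I) := by
          rw [Finset.prod_const, Finset.card_univ, pow_mul]
      _ ≤ 2 ^ (c ^ (κ + 1)) := by
          refine Nat.pow_le_pow_right (by norm_num) ?_
          rw [pow_succ]
          exact Nat.mul_le_mul_left _ hc

end

end Pool.Agent.H92.LG
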