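import Pool.Agent.H92.LG.Cls
import Pool.Agent.H92.LG.Dic
import Pool.Agent.H92.LG.Sys

/-!
# [H92 LG Plc] the system of windows of one place

`nm_act`: `exists_nm_smul` for `h = ct g`: `Matrix.vecMul v (g⁻¹)ᵀ = (g⁻¹).mulVec v`.

`place`: `R0` with `Bdm R0 v (sg (σ j))` for all `j` (finitely many entries). `hcore J R0` gives `R'`, `κ`, `c1`. For `c ≥ c1` take `M`, `T`,
then `S` from `exists_dic`, `E` and `f` from `exists_hom` (`A = Subring.closure S`; `LL E` is `LaurentSeries E`), `hA`, then `St0 Wk0 f0 δ` from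
the core for `σ' j = mp f ⟨σ j, hA j⟩` (`σ' j' = (σ' j)⁻¹` as `mp` is a homomorphism), `tv` for some `π'` with `od E π' = 1` (`isDV_od.unif`).
`St t = {ξ | Hon ξ ∧ St0 t (nm ξ)}`, `Wk t = {ξ | Hon ξ ∧ Wk0 t (nm ξ)}`, `f' t ξ p = tv (f0 t (nm ξ) p)`.
`strong`: `CoreOut.strong`, `Hon.isNrm`. `near`: `U` from `exists_Close`; `b' = nm ((γ j)⁻¹ • b)`: `(γ j)⁻¹ • b = ct (σ' j)⁻¹ • b`, by `nm_act`
`nm ((γ j)⁻¹ • b) y = a * nm b ((σ' j).mulVec y)`; `CoreOut.stab`, `CoreOut.term` and the translation in `exists_dic`. (`hon_smul`.)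
`inj`: `CoreOut.inj` and the injectivity of `tv` on the values of terms. `fin`, `card`: image under `tv` of the set in `CoreOut.fin`
(`Set.ncard_image_le`).
-/

set_option autoImplicit false

namespace Pool.Agent.H92.LG

open Pool.Agent.H54.TT Pool.Agent.H98.RH Pool.Agent.H9.XM Pool.Agent.H76.LN Pool.Agent.H65.NT
open scoped NNReal

theorem nm_act {K : Type} [NormedField K] [IsUltrametricDist K] [ProperSpace K] {n : ℕ} (g : GL (Fin n) K) (ξ : Xm n K) :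
    ∃ a : ℝ≥0, 0 < a ∧ ∀ y, nm (ct g • ξ) y = a * nm ξ ((g⁻¹).val.mulVec y) := by
  obtain ⟨a, ha, h⟩ := exists_nm_smul (ct g) ξ
  refine ⟨a, ha, fun y => ?_⟩
  have h1 : Matrix.vecMul y (ct g).1 = (g⁻¹).val.mulVec y := by
    show Matrix.vecMul y (Matrix.transpose (g⁻¹).val) = _
    rw [Matrix.vecMul_transpose]
  rw [h y, h1]

private theorem exists_unif_bd {ι : Type} [Finite ι] {P : ℕ → ι → Prop} (hP : ∀ R R' i, R ≤ R' → P R i → P R' i)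
    (h : ∀ i, ∃ R, P R i) : ∃ R, ∀ i, P R i := by
  classical
  cases nonempty_fintype ι
  choose R hR using h
  refine ⟨Finset.univ.sup R, fun i => hP _ _ _ (Finset.le_sup (Finset.mem_univ i)) (hR i)⟩

private theorem exists_ge {F : Type} [Field F] (v : F → ℤ) (x : F) : ∃ R : ℕ, Ge v (-(R : ℤ)) x := by
  refine ⟨(v x).natAbs, fun _ => ?_⟩
  omega

private theorem ge_mono {F : Type} [Field F] {v : F → ℤ} {x : F} {R R' : ℕ} (h : R ≤ R') (hx : Ge v (-(R : ℤ)) x) :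
    Ge v (-(R' : ℤ)) x := by
  intro h0
  have h1 := hx h0
  omega

private theorem bdm_mono {F : Type} [Field F] {v : F → ℤ} {n : ℕ} {g : GL (Fin n) F} {R R' : ℕ} (h : R ≤ R')
    (hx : Bdm R v g) : Bdm R' v g := fun i j => ⟨ge_mono h (hx i j).1, ge_mono h (hx i j).2⟩

private theorem exists_bdm {F : Type} [Field F] (v : F → ℤ) {n : ℕ} (g : GL (Fin n) F) : ∃ R : ℕ, Bdm R v g := by
  obtain ⟨R, hR⟩ := exists_unif_bd (ι := Fin n × Fin n)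
    (P := fun R q => Ge v (-(R : ℤ)) (g.val q.1 q.2) ∧ Ge v (-(R : ℤ)) ((g⁻¹).val q.1 q.2))
    (fun R R' q h hq => ⟨ge_mono h hq.1, ge_mono h hq.2⟩) (fun q => by
      obtain ⟨a, ha⟩ := exists_ge v (g.val q.1 q.2)
      obtain ⟨b, hb⟩ := exists_ge v ((g⁻¹).val q.1 q.2)
      exact ⟨a + b, ge_mono (Nat.le_add_right a b) ha, ge_mono (Nat.le_add_left b a) hb⟩)
  exact ⟨R, fun i j => hR (i, j)⟩

/-- the system of windows of the core, transported with the translation `tv` of lattices -/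
private theorem bsys {F : Type} [Field F] {v : F → ℤ} (hv : IsDV v) {n : ℕ} {Reg : Type} {r : Reg → ℕ} {J : Type}
    {R' κ c : ℕ} (hc : R' ≤ c) {M : ℕ} {T : Set (Pool.Agent.H98.RH.LT (Fin M → J))} {E : Type} [Field E] [Finite E]
    (σ : J → SLn n F) (σ' : J → GL (Fin n) (LL E)) (h1 : ∃ j, σ' j = 1)
    {St Wk : Reg → ((Fin n → LL E) → ℝ≥0) → Prop}
    {f : ∀ t : Reg, ((Fin n → LL E) → ℝ≥0) → (Fin (r t + 1) → ℤ) → Submodule (Ov (isDV_od E)) (Fin n → LL E)} {δ : ℝ≥0}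
    (hδ : 0 < δ) (hco : CoreOut σ' r R' κ c T St Wk f δ) (π' : (LL E)ˣ) (hπ : od E π' = 1)
    (tv : Submodule (Ov (isDV_od E)) (Fin n → LL E) → Lt n hv)
    (hinj : ∀ m ∈ T, ∀ m' ∈ T, tv (ev (isDV_od E) π' (wd σ') m) = tv (ev (isDV_od E) π' (wd σ') m') →
      ev (isDV_od E) π' (wd σ') m = ev (isDV_od E) π' (wd σ') m')
    (htr : ∀ j, ∀ m ∈ T, ∀ m' ∈ T, gm (isDV_od E) (σ' j) (ev (isDV_od E) π' (wd σ') m) = ev (isDV_od E) π' (wd σ') m' →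
      sg n F (σ j) • tv (ev (isDV_od E) π' (wd σ') m) = tv (ev (isDV_od E) π' (wd σ') m'))
    {G : Type} [Group G] [MulAction G (Xm n (LL E))] [MulAction G (Lt n hv)] (γ : J → G)
    (hγ : ∀ j (ξ : Xm n (LL E)), γ j • ξ = ct (σ' j) • ξ) (hγ' : ∀ j (x : Lt n hv), γ j • x = sg n F (σ j) • x) :
    BSys {ξ : Xm n (LL E) | Hon ξ} γ (fun t => r t + 1) R' κ c (fun t => {ξ | Hon ξ ∧ St t (nm ξ)})
      (fun t => {ξ | Hon ξ ∧ Wk t (nm ξ)}) (fun t ξ p => tv (f t (nm ξ) p)) := by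
  have hγi : ∀ j (ξ : Xm n (LL E)), (γ j)⁻¹ • ξ = ct (σ' j)⁻¹ • ξ := by
    intro j ξ
    rw [inv_smul_eq_iff, hγ, ← mul_smul, ← map_mul, mul_inv_cancel, map_one, one_smul]
  have hsub : {y | ∃ t, ∃ b ∈ {ξ : Xm n (LL E) | Hon ξ ∧ Wk t (nm ξ)}, ∃ p, Near c p 0 ∧ y = tv (f t (nm b) p)} ⊆
      tv '' {Λ | ∃ t b p, IsNrm b ∧ Wk t b ∧ Near c p 0 ∧ Λ = f t b p} := by
    rintro y ⟨t, b, hb, p, hp, rfl⟩
    exact ⟨_, ⟨t, nm b, p, hb.1.isNrm, hb.2, hp, rfl⟩, rfl⟩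
  refine ⟨fun t ξ hξ => hξ.1, fun b hb => ?_, fun x => ?_, fun t b hb p q hp hq hpq => ?_, ?_, ?_⟩
  · obtain ⟨t, ht⟩ := hco.strong (nm b) (Hon.isNrm hb)
    exact ⟨t, hb, ht⟩
  · obtain ⟨U, hU, hxU, hcl⟩ := exists_Close x hδ
    refine ⟨U, hU, hxU, fun t b0 hb0 hb0H hb0S b hb hbH j => ?_⟩
    obtain ⟨j1, hj1⟩ := h1
    have hw0 : Wk t (nm b0) := by
      refine (hco.stab t (nm b0) (nm b0) (nm b0) j1 1 hb0S.1.isNrm hb0S.1.isNrm hb0S.2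
        (hcl b0 hb0 b0 hb0 hb0S.1 hb0S.1) one_pos fun y => ?_).1
      rw [hj1, Units.val_one, Matrix.one_mulVec, one_mul]
    obtain ⟨a, ha, hna⟩ := nm_act (σ' j)⁻¹ b
    rw [inv_inv] at hna
    have hb' : Hon ((γ j)⁻¹ • b) := by
      rw [hγi]
      exact hon_smul _ hbH
    obtain ⟨h2, d, hd, h3⟩ := hco.stab t (nm b0) (nm b) (nm ((γ j)⁻¹ • b)) j a hb0S.1.isNrm (Hon.isNrm hbH) hb0S.2
      (hcl b0 hb0 b hb hb0S.1 hbH) ha (fun y => by rw [hγi]; exact hna y)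
    refine ⟨⟨hb', h2⟩, d, hd, fun p hp => ?_⟩
    have hpc : Near c p 0 := hp.mono (Nat.sub_le _ _)
    have hpd : Near c (p + d) 0 := by
      intro i
      have e1 := hp i
      have e2 := hd i
      rw [Pi.zero_apply, sub_zero] at e1 e2 ⊢
      rw [Pi.add_apply]
      have e3 := abs_add_le (p i) (d i)
      have e4 : ((c - R' : ℕ) : ℤ) + R' = c := by omega
      linarith
    obtain ⟨m, hm, hm'⟩ := hco.term t (nm ((γ j)⁻¹ • b)) hb'.isNrm h2 p hpc π' hπ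
    obtain ⟨m2, hm2, hm2'⟩ := hco.term t (nm b0) hb0S.1.isNrm hw0 (p + d) hpd π' hπ
    have h4 := h3 p hp
    show γ j • tv (f t (nm ((γ j)⁻¹ • b)) p) = tv (f t (nm b0) (p + d))
    rw [hm', hm2'] at h4
    rw [hγ', hm', hm2']
    exact htr j m hm m2 hm2 h4
  · obtain ⟨m, hm, hm'⟩ := hco.term t (nm b) hb.1.isNrm hb.2 p hp π' hπ
    obtain ⟨m2, hm2, hm2'⟩ := hco.term t (nm b) hb.1.isNrm hb.2 q hq π' hπ
    have h4 : tv (f t (nm b) p) = tv (f t (nm b) q) := hpq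
    rw [hm', hm2'] at h4
    have h5 := hinj m hm m2 hm2 h4
    rw [← hm', ← hm2'] at h5
    exact hco.inj t (nm b) hb.1.isNrm hb.2 p q hp hq h5
  · exact (hco.fin.image tv).subset hsub
  · refine (Set.ncard_le_ncard hsub (hco.fin.image tv)).trans ?_
    exact (Set.ncard_image_le hco.fin).trans hco.card

theorem place {k F : Type} [Field k] [Field F] [Algebra k F] {v : F → ℤ} (hv : IsDV v)
    (hk : ∀ c : k, c ≠ 0 → v (algebraMap k F c) = 0)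
    (hres : ∀ x : F, Ge v 0 x → ∃ c : k, Ge v 1 (x - algebraMap k F c)) {n : ℕ} {Reg : Type} {r : Reg → ℕ} {J : Type} [Finite J]
    (hcore : ∀ R : ℕ,
      ∃ R' κ c1 : ℕ, ∀ c, c1 ≤ c → ∃ (M : ℕ) (T : Set (Pool.Agent.H98.RH.LT (Fin M → J))), T.Finite ∧
        ∀ (E : Type) [Field E] [Finite E] (σ : J → GL (Fin n) (LL E)), (∃ j, σ j = 1) → (∀ j, ∃ j', σ j' = (σ j)⁻¹) →
          (∀ j, Bdm R (od E) (σ j)) → ∃ (St Wk : Reg → ((Fin n → LL E) → ℝ≥0) → Prop)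
            (f : ∀ t : Reg, ((Fin n → LL E) → ℝ≥0) → (Fin (r t + 1) → ℤ) → Submodule (Ov (isDV_od E)) (Fin n → LL E))
            (δ : ℝ≥0), 0 < δ ∧ CoreOut σ r R' κ c T St Wk f δ)
    (σ : J → SLn n F) (h1 : ∃ j, σ j = 1) (hinv : ∀ j, ∃ j', σ j' = (σ j)⁻¹) :
    ∃ R' κ c1 : ℕ, ∀ c, c1 ≤ c → ∃ (E : Type) (_ : Field E) (_ : Finite E) (A : Subring F) (f : A →+* LL E)
      (hA : ∀ j, σ j ∈ SA n A), ∀ (G : Type) [Group G] [MulAction G (Xm n (LL E))] [MulAction G (Lt n hv)] (γ : J → G),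
        (∀ j (ξ : Xm n (LL E)), γ j • ξ = ct (mp f ⟨σ j, hA j⟩) • ξ) → (∀ j (x : Lt n hv), γ j • x = sg n F (σ j) • x) →
        ∃ (St Wk : Reg → Set (Xm n (LL E))) (f' : ∀ t : Reg, Xm n (LL E) → (Fin (r t + 1) → ℤ) → Lt n hv),
          BSys {ξ | Hon ξ} γ (fun t => r t + 1) R' κ c St Wk f' := by
  obtain ⟨R0, hR0⟩ : ∃ R0 : ℕ, ∀ j, Bdm R0 v (sg n F (σ j)) :=
    exists_unif_bd (P := fun R j => Bdm R v (sg n F (σ j))) (fun _ _ _ h hx => bdm_mono h hx) fun j => exists_bdm v _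
  obtain ⟨R', κ, c1, hc1⟩ := hcore R0
  refine ⟨R', κ, c1 + R', fun c hc => ?_⟩
  obtain ⟨M, T, hT, hE⟩ := hc1 c (by omega)
  obtain ⟨S, hS⟩ := exists_dic hv σ h1 T hT
  obtain ⟨E, hfE, hfin, f, hf⟩ := exists_hom hv hk hres S
  obtain ⟨hA, hbd, htv⟩ := hS (Subring.closure (S : Set F)) (LL E) (od E) (isDV_od E) f hf
  obtain ⟨p, hp0, hp1⟩ := (isDV_od E).unif
  obtain ⟨tv, hinj, htr⟩ := htv (Units.mk0 p hp0) hp1
  have hone : ∃ j, mp (f : Subring.closure (S : Set F) →+* LL E) ⟨σ j, hA j⟩ = 1 := by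
    obtain ⟨j, hj⟩ := h1
    refine ⟨j, ?_⟩
    have e : (⟨σ j, hA j⟩ : SA n (Subring.closure (S : Set F))) = 1 := Subtype.ext hj
    rw [e, map_one]
  have hin : ∀ j, ∃ j', mp (f : Subring.closure (S : Set F) →+* LL E) ⟨σ j', hA j'⟩ =
      (mp (f : Subring.closure (S : Set F) →+* LL E) ⟨σ j, hA j⟩)⁻¹ := by
    intro j
    obtain ⟨j', hj'⟩ := hinv j
    refine ⟨j', ?_⟩
    have e : (⟨σ j', hA j'⟩ : SA n (Subring.closure (S : Set F))) = ⟨σ j, hA j⟩⁻¹ := Subtype.ext hj'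
    rw [e, map_inv]
  obtain ⟨St, Wk, f0, δ, hδ, hco⟩ := hE E (fun j => mp (f : Subring.closure (S : Set F) →+* LL E) ⟨σ j, hA j⟩) hone hin
    (hbd R0 hR0)
  refine ⟨E, hfE, hfin, Subring.closure (S : Set F), f, hA, fun G _ _ _ γ hγ hγ' => ?_⟩
  exact ⟨_, _, _, bsys hv (by omega) σ _ hone hδ hco (Units.mk0 p hp0) hp1 tv hinj htr γ hγ hγ'⟩

end Pool.Agent.H92.LG
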