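import Pool.Agent.H92.LG.Top
import Pool.Agent.H92.LG.Plc
import Pool.Agent.H92.LG.Cov
import Pool.Agent.H2.WN.Rig
import Pool.Agent.H9.XM.Dom
import Pool.Agent.H9.XM.Tru
import Pool.Agent.H10.LS.Unif
import Pool.Agent.H10.BR.Core

/-!
# [H92 LG Glu] the end of the chapter GLUE
-/

set_option autoImplicit false

namespace Pool.Agent.H92.LG

open Pool.Agent.H98.FJ Pool.Agent.H54.TT Pool.Agent.H98.RH Pool.Agent.H9.XM Pool.Agent.H76.LN Pool.Agent.H76.GT
  Pool.Agent.H2.WN Pool.Agent.H65.NT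

theorem IsCover.mono {C : (G : Type) → [Group G] → Prop} {G X : Type} [Group G] [TopologicalSpace X] [MulAction G X]
    {N N' : ℕ} {S S' : Set G} {U : Set (Set (G × X))} (h : IsCover C N S U) (hN : N ≤ N') (hS : S' ⊆ S) :
    IsCover C N' S' U where
  isOpen := h.isOpen
  inv := h.inv
  eq := h.eq
  stab := h.stab
  mult q := (h.mult q).trans (by exact_mod_cast Nat.succ_le_succ hN)
  wide g x := by
    obtain ⟨u, hu, h1⟩ := h.wide g x
    exact ⟨u, hu, fun s hs => h1 s (hS hs)⟩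

/-- matrices which generate the group and lift the elements of the finite set `S` -/
theorem exists_lift {F : Type} [Field F] {n : ℕ} {G : Subgroup (PS n F)} (hG : G.FG) {S : Set (PS n F)} (hS : S.Finite)
    (hSG : S ⊆ G) : ∃ (J : Type) (_ : Finite J) (σ : J → SLn n F), (∃ j, σ j = 1) ∧ (∀ j, ∃ j', σ j' = (σ j)⁻¹) ∧
      (Subgroup.closure (Set.range σ)).map (ps n F) = G ∧ ∀ g ∈ S, ∃ j, ps n F (σ j) = g := by
  classical
  obtain ⟨P, hP⟩ := hG
  obtain ⟨Q, hQ⟩ : ∃ Q : Set (PS n F), Q = (P : Set (PS n F)) ∪ S := ⟨_, rfl⟩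
  have hQf : Q.Finite := by
    rw [hQ]
    exact P.finite_toSet.union hS
  have hQG : Q ⊆ G := by
    rw [hQ]
    refine Set.union_subset ?_ hSG
    rw [← hP]
    exact Subgroup.subset_closure
  let l : PS n F → SLn n F := Function.surjInv ps_surj
  have hl : ∀ g, ps n F (l g) = g := Function.surjInv_eq ps_surj
  let T : Set (SLn n F) := insert 1 (l '' Q ∪ (fun x => x⁻¹) '' (l '' Q))
  have hT : T.Finite := ((hQf.image l).union ((hQf.image l).image _)).insert 1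
  have hTG : ∀ x ∈ T, ps n F x ∈ G := by
    rintro x (rfl | ⟨g, hg, rfl⟩ | ⟨_, ⟨g, hg, rfl⟩, rfl⟩)
    · rw [map_one]
      exact G.one_mem
    · rw [hl]
      exact hQG hg
    · show ps n F (l g)⁻¹ ∈ G
      rw [map_inv, hl]
      exact G.inv_mem (hQG hg)
  refine ⟨T, hT.to_subtype, Subtype.val, ⟨⟨1, Set.mem_insert _ _⟩, rfl⟩, ?_, ?_, ?_⟩
  · rintro ⟨x, hx⟩
    rcases hx with rfl | hx | hx
    · exact ⟨⟨1, Set.mem_insert _ _⟩, by rw [inv_one]⟩
    · exact ⟨⟨x⁻¹, Set.mem_insert_of_mem _ (Or.inr ⟨x, hx, rfl⟩)⟩, rfl⟩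
    · obtain ⟨y, hy, rfl⟩ := hx
      refine ⟨⟨y, Set.mem_insert_of_mem _ (Or.inl hy)⟩, ?_⟩
      show y = (y⁻¹)⁻¹
      rw [inv_inv]
  · rw [Subtype.range_coe]
    apply le_antisymm
    · rw [Subgroup.map_le_iff_le_comap, Subgroup.closure_le]
      exact fun x hx => hTG x hx
    · rw [← hP, Subgroup.closure_le]
      intro g hg
      refine ⟨l g, Subgroup.subset_closure (Set.mem_insert_of_mem _ (Or.inl ⟨g, ?_, rfl⟩)), hl g⟩
      rw [hQ]
      exact Or.inl hg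
  · intro g hg
    refine ⟨⟨l g, Set.mem_insert_of_mem _ (Or.inl ⟨g, ?_, rfl⟩)⟩, hl g⟩
    rw [hQ]
    exact Or.inr hg

theorem glue {C : (G : Type) → [Group G] → Prop} (hC : Inherits C) (hT : TransferV C) {k F ι : Type} [Field k] [Field F]
    [Algebra k F] {v : ι → F → ℤ} (hv : ∀ i, IsDV (v i)) (hk : ∀ i (c : k), c ≠ 0 → v i (algebraMap k F c) = 0)
    (hres : ∀ i (x : F), Ge (v i) 0 x → ∃ c : k, Ge (v i) 1 (x - algebraMap k F c)) {n : ℕ} (hn : 0 < n)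
    (s : Finset ι)
    (G : Subgroup (PS n F)) (hG : G.FG) {D D' : ℕ}
    (hst : ∀ x : Tup n hv s, C (MulAction.stabilizer G x))
    (hB : HasObj C (BddGrp (Tup n hv s) (⊥ : Subgroup G)) D)
    (hA : HasObj C (AblGrp (Tup n hv s) (⊥ : Subgroup G) n) D') : C G := by
  classical
  obtain ⟨Reg, iReg, r, hcore⟩ := Pool.Agent.H10.BR.core hn
  let q : ℕ := D + 1 + (D' + 1)
  let rT : (∀ _ : s, Reg) → ℕ := rk (fun _ : s => fun t : Reg => r t + 1)
  have hR : ∀ t, LocRigW C G (Tup n hv s) (rT t) q := fun t => rig_obj (rT t) hn hB hA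
  refine transferV_top hT (max (Fintype.card s * (n - 1)) (∑ t, (q + 3 ^ rT t))) ((Group.fg_iff_subgroup_fg G).2 hG) fun S hS => ?_
  obtain ⟨J, iJ, σ, h1, hinv, hΓG, hσS⟩ := exists_lift hG (hS.image Subtype.val) (by
    rintro _ ⟨g, -, rfl⟩
    exact g.2)
  subst hΓG
  let Γ : Subgroup (SLn n F) := Subgroup.closure (Set.range σ)
  have hσΓ : ∀ j, σ j ∈ Γ := fun j => Subgroup.subset_closure ⟨j, rfl⟩
  have hpl := fun i : s => place (hv i) (hk i) (hres i) (fun R => hcore J R) σ h1 hinv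
  choose R' κ c1 hpl using hpl
  let R0 : ℕ := ∑ i, R' i
  let κ0 : ℕ := ∑ i, κ i
  obtain ⟨c0, hc0⟩ := cover_of_sys hC hst rT q hR R0 (κ0 + 1)
  let c : ℕ := c0 + ∑ i, c1 i + Fintype.card s + 1
  have hcc0 : c0 ≤ c := by
    show c0 ≤ c0 + ∑ i, c1 i + Fintype.card s + 1
    omega
  have hcc1 : ∀ i, c1 i ≤ c := fun i => by
    have := Finset.single_le_sum (f := c1) (fun _ _ => Nat.zero_le _) (Finset.mem_univ i)
    show c1 i ≤ c0 + ∑ i, c1 i + Fintype.card s + 1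
    omega
  have hccs : Fintype.card s ≤ c := by
    show Fintype.card s ≤ c0 + ∑ i, c1 i + Fintype.card s + 1
    omega
  have hcpos : 0 < c := Nat.succ_pos _
  choose E iE1 iE2 A f hA' hsys using fun i => hpl i c (hcc1 i)
  have hΓA : ∀ i, Γ ≤ SA n (A i) := fun i => (Subgroup.closure_le _).2 (by
    rintro _ ⟨j, rfl⟩
    exact hA' i j)
  choose Ψ hΨ using fun i : s => exists_act hn (f i) (hΓA i)
  let iact : ∀ i : s, MulAction (Γ.map (ps n F)) (Xm n (LL (E i))) := fun i => MulAction.compHom _ (Ψ i)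
  have hact : ∀ (i : s) (g : SLn n F) (hg : g ∈ Γ) (ξ : Xm n (LL (E i))),
      (⟨ps n F g, Subgroup.mem_map_of_mem _ hg⟩ : Γ.map (ps n F)) • ξ = ct (mp (f i) ⟨g, hΓA i hg⟩) • ξ := fun i g hg ξ => hΨ i g hg ξ
  let γ : J → Γ.map (ps n F) := fun j => ⟨ps n F (σ j), Subgroup.mem_map_of_mem _ (hσΓ j)⟩
  have hex := fun i : s => hsys i (Γ.map (ps n F)) γ (fun j ξ => hact i (σ j) (hσΓ j) ξ) (fun j x => rfl)
  choose St Wk f' hsys' using hex
  have hbs := BSys.pi (fun _ : s => fun t : Reg => r t + 1) (fun i : s => (hsys' i).mono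
    (Finset.single_le_sum (f := R') (fun _ _ => Nat.zero_le _) (Finset.mem_univ i))
    (Finset.single_le_sum (f := κ) (fun _ _ => Nat.zero_le _) (Finset.mem_univ i)) hcpos) hccs hcpos
  have hcont : ∀ i : s, ContinuousConstSMul (Γ.map (ps n F)) (Xm n (LL (E i))) := by
    intro i
    refine ⟨fun g => ?_⟩
    obtain ⟨y, hy, rfl⟩ : ∃ y, ∃ hy : y ∈ Γ, g = (⟨ps n F y, Subgroup.mem_map_of_mem _ hy⟩ : Γ.map (ps n F)) := by
      obtain ⟨y, hy, hy2⟩ := g.2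
      exact ⟨y, hy, Subtype.ext hy2.symm⟩
    have e : (fun ξ : Xm n (LL (E i)) => (⟨ps n F y, Subgroup.mem_map_of_mem _ hy⟩ : Γ.map (ps n F)) • ξ) =
        fun ξ => ct (mp (f i) ⟨y, hΓA i hy⟩) • ξ := funext fun ξ => hact i y hy ξ
    exact e ▸ continuous_const_smul _
  have hdense : Dense {x : ∀ i : s, Xm n (LL (E i)) | ∀ i, x i ∈ {ξ : Xm n (LL (E i)) | Hon ξ}} := by
    have h2 : {x : ∀ i : s, Xm n (LL (E i)) | ∀ i, x i ∈ {ξ : Xm n (LL (E i)) | Hon ξ}} =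
        Set.pi Set.univ fun i => {ξ : Xm n (LL (E i)) | Hon ξ} := by
      ext x
      simp
    rw [h2]
    exact dense_pi Set.univ fun i _ => dense_hon
  have hBinv : ∀ (g : Γ.map (ps n F)) (x : ∀ i : s, Xm n (LL (E i))),
      x ∈ {x : ∀ i : s, Xm n (LL (E i)) | ∀ i, x i ∈ {ξ : Xm n (LL (E i)) | Hon ξ}} →
      g • x ∈ {x : ∀ i : s, Xm n (LL (E i)) | ∀ i, x i ∈ {ξ : Xm n (LL (E i)) | Hon ξ}} := by
    rintro ⟨_, y, hy, rfl⟩ x hx i
    show Hon ((⟨ps n F y, Subgroup.mem_map_of_mem _ hy⟩ : Γ.map (ps n F)) • x i)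
    rw [hact i y hy]
    exact hon_smul _ (hx i)
  obtain ⟨U, hU⟩ := hc0 c hcc0 (∀ i : s, Xm n (LL (E i))) _ hdense hBinv J γ (by
    obtain ⟨j, hj⟩ := h1
    refine ⟨j, Subtype.ext ?_⟩
    show ps n F (σ j) = 1
    rw [hj, map_one]) _ _ _ hbs
  refine ⟨∀ i : s, Xm n (LL (E i)), inferInstance, inferInstance, inferInstance, inferInstance, inferInstance,
    contractible_pi, inferInstance, ⟨_, le_max_left _ _, topDom_pi_fintype fun i => topDom (Pool.Agent.H10.LS.isUnif_tL) hn⟩, U,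
    IsCover.mono hU (le_max_right _ _) ?_⟩
  intro g hg
  obtain ⟨j, hj⟩ := hσS g.1 ⟨g, hg, rfl⟩
  exact ⟨j, Subtype.ext hj⟩

end Pool.Agent.H92.LG
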