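import Pool.Agent.H92.LG.CoreS
import Pool.Agent.H9.XM.CloU

/-!
# [H92 LG Cls] near honest points have close norms; the norms of translates

`exists_Close`: `exists_close` for `g = 1`, `δ`. If `IsSig k (nm b) s` with `Adp B α (nm b)` (this file's `Adp`, from `CoreS`), then
`nm b (B i) = α i` (`eq` for the unit vector), so `Pool.Agent.H9.XM.Adp 1 B (nm b)` and `s y = sg B (nm b) k y`: `y = vecMul (vecMul y B⁻¹) B`.
`nm_act`: `exists_nm_smul` for `h = ct g`: `Matrix.vecMul v (g⁻¹)ᵀ = (g⁻¹).mulVec v`.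
-/

set_option autoImplicit false

namespace Pool.Agent.H92.LG

open Pool.Agent.H9.XM
open scoped NNReal

private theorem adp_val {K : Type} [NormedField K] {n : ℕ} {b : (Fin n → K) → ℝ≥0} {B : Matrix (Fin n) (Fin n) K}
    {α : Fin n → ℝ≥0} (h : Adp B α b) (i : Fin n) : b (B i) = α i := by
  have e1 : Matrix.vecMul (Pi.single i 1) B = B i := by
    funext j
    simp [Matrix.row]
  rw [← e1, h.eq]
  refine le_antisymm (Finset.sup_le fun j _ => ?_) ?_
  · rcases eq_or_ne j i with rfl | hj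
    · simp
    · simp [Pi.single_eq_of_ne hj]
  · have h1 := Finset.le_sup (f := fun j => ‖(Pi.single i (1 : K) : Fin n → K) j‖₊ * α j) (Finset.mem_univ i)
    simpa using h1

private theorem sig_sg {K : Type} [NormedField K] [IsUltrametricDist K] {n : ℕ} {b s : (Fin n → K) → ℝ≥0} {k : Fin n} (h : IsSig k b s) :
    ∃ B : Matrix (Fin n) (Fin n) K, Pool.Agent.H9.XM.Adp 1 B b ∧ ∀ y, s y = sg B b k y := by
  obtain ⟨B, α, hB, hs⟩ := h
  refine ⟨B, ⟨?_, fun i j hij => ?_, fun x => ?_⟩, fun y => ?_⟩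
  · rw [inv_one, Matrix.mul_one]
    exact hB.go
  · rw [adp_val hB, adp_val hB]
    exact hB.anti i j hij
  · rw [hB.eq]
    refine Finset.sup_congr rfl fun i _ => ?_
    rw [adp_val hB]
  · have h1 : Matrix.vecMul (Matrix.vecMul y B⁻¹) B = y := by
      rw [Matrix.vecMul_vecMul, Matrix.nonsing_inv_mul _ hB.go.isUnit, Matrix.vecMul_one]
    have h2 := hs (Matrix.vecMul y B⁻¹)
    rw [h1] at h2
    rw [h2]
    unfold sg
    refine Finset.sup_congr rfl fun i _ => ?_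
    rw [adp_val hB, adp_val hB, min_comm]

theorem exists_Close {K : Type} [NormedField K] [IsUltrametricDist K] [ProperSpace K] {n : ℕ} (ξ : Xm n K) {δ : ℝ≥0}
    (hδ : 0 < δ) : ∃ U : Set (Xm n K), IsOpen U ∧ ξ ∈ U ∧ ∀ b ∈ U, ∀ b' ∈ U, Hon b → Hon b' → Close δ (nm b) (nm b') := by
  obtain ⟨U, hU, hξ, h⟩ := exists_close ξ 1 hδ
  refine ⟨U, hU, hξ, fun b hb b' hb' hH hH' k s s' hs hs' y hy => ?_⟩
  obtain ⟨B, hB, e⟩ := sig_sg hs
  obtain ⟨B', hB', e'⟩ := sig_sg hs'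
  have hy' : ∀ i, ‖Matrix.vecMul y ((1 : Matrix.GeneralLinearGroup (Fin n) K).1)⁻¹ i‖₊ ≤ 1 := by
    intro i
    rw [Units.val_one, inv_one, Matrix.vecMul_one]
    exact hy i
  rw [e, e']
  exact ⟨h b hb b' hb' hH hH' B B' hB hB' k y hy', h b' hb' b hb hH' hH B' B hB' hB k y hy'⟩

end Pool.Agent.H92.LG
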