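import Pool.Agent.H76.GU.TrT
import Pool.Agent.H76.GU.Poly
import Mathlib.Topology.UniformSpace.Compact
import Mathlib.Topology.Algebra.Module.FiniteDimension

/-!
# [H92 LG Prd] products of finitely dominated compact spaces
-/

set_option autoImplicit false

namespace Pool.Agent.H92.LG

open Pool.Agent.H76.GT Filter Topology

/-- a neighbourhood of the diagonal of a finite product of compact Hausdorff spaces contains a product of neighbourhoods of
the diagonals -/
theorem exists_box {m : ℕ} {X : Fin m → Type} [∀ k, TopologicalSpace (X k)] [∀ k, CompactSpace (X k)] [∀ k, T2Space (X k)]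
    {W : Set ((∀ k, X k) × (∀ k, X k))} (hW : IsOpen W) (h : ∀ x, (x, x) ∈ W) :
    ∃ V : ∀ k, Set (X k × X k), (∀ k, IsOpen (V k)) ∧ (∀ k x, (x, x) ∈ V k) ∧
      ∀ x y : ∀ k, X k, (∀ k, (x k, y k) ∈ V k) → (x, y) ∈ W := by
  classical
  let _ : ∀ k, UniformSpace (X k) := fun k => uniformSpaceOfCompactR1
  have h1 : W ∈ uniformity (∀ k, X k) := by
    rw [← nhdsSet_diagonal_eq_uniformity]
    exact hW.mem_nhdsSet.2 (by
      rintro ⟨x, y⟩ hxy
      have h0 : x = y := hxy
      subst h0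
      exact h x)
  rw [Pi.uniformity, Filter.mem_iInf_of_finite] at h1
  obtain ⟨s, hs, hs2⟩ := h1
  have h2 : ∀ k, ∃ V : Set (X k × X k), IsOpen V ∧ (∀ x, (x, x) ∈ V) ∧
      (fun a : (∀ k, X k) × (∀ k, X k) => (a.1 k, a.2 k)) ⁻¹' V ⊆ s k := by
    intro k
    obtain ⟨V, hV, hV2⟩ := hs k
    obtain ⟨V', ⟨h3, h4⟩, h5⟩ := (uniformity_hasBasis_open (α := X k)).mem_iff.1 hV
    exact ⟨V', h4, fun x => refl_mem_uniformity h3, (Set.preimage_mono h5).trans hV2⟩
  choose V hV1 hV2 hV3 using h2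
  refine ⟨V, hV1, hV2, fun x y hxy => ?_⟩
  rw [hs2]
  exact Set.mem_iInter.2 fun k => hV3 k (hxy k)

/-- Proof. `exists_box`, the product of the polyhedra (`isPolyhedron_pi`) and its image in some `Fin m' → ℝ`. -/
theorem topDom_pi {m : ℕ} {X : Fin m → Type} [∀ k, TopologicalSpace (X k)] [∀ k, CompactSpace (X k)] [∀ k, T2Space (X k)]
    {N : Fin m → ℕ} (h : ∀ k, TopDom (N k) (X k)) : TopDom (∑ k, N k) (∀ k, X k) := by
  classical
  intro W hW hW2
  obtain ⟨V, hV1, hV2, hV3⟩ := exists_box hW hW2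
  choose d K hK p i H h0 h1 h2 using fun k => h k (V k) (hV1 k) (hV2 k)
  let K0 : Set (∀ k, Fin (d k) → ℝ) := {x | ∀ k, x k ∈ K k}
  have hK0 : IsPolyhedron (∑ k, N k) K0 := isPolyhedron_pi hK
  let e : (∀ k, Fin (d k) → ℝ) ≃L[ℝ] (Fin (Module.finrank ℝ (∀ k, Fin (d k) → ℝ)) → ℝ) :=
    ContinuousLinearEquiv.ofFinrankEq (Module.finrank_fin_fun ℝ).symm
  have hs : ∀ y : (e '' K0 : Set _), e.symm y ∈ K0 := by
    rintro ⟨_, z, hz, rfl⟩
    show e.symm (e z) ∈ K0
    rw [e.symm_apply_apply]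
    exact hz
  refine ⟨_, e '' K0, isPolyhedron_image hK0 e.toLinearEquiv.toLinearMap,
    ⟨fun x => ⟨e (fun k => (p k (x k) : Fin (d k) → ℝ)), _, fun k => (p k (x k)).2, rfl⟩, ?_⟩,
    ⟨fun y k => i k ⟨e.symm y k, hs y k⟩, ?_⟩, ⟨fun q k => H k (q.1, q.2 k), ?_⟩, ?_, ?_, ?_⟩
  · refine Continuous.subtype_mk (e.continuous.comp ?_) _
    exact continuous_pi fun k => continuous_subtype_val.comp ((p k).continuous.comp (continuous_apply k))
  · refine continuous_pi fun k => (i k).continuous.comp ?_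
    exact Continuous.subtype_mk ((continuous_apply k).comp (e.symm.continuous.comp continuous_subtype_val)) _
  · refine continuous_pi fun k => (H k).continuous.comp ?_
    exact continuous_fst.prodMk ((continuous_apply k).comp continuous_snd)
  · intro x
    funext k
    show H k (0, x k) = i k ⟨e.symm (e fun k => (p k (x k) : Fin (d k) → ℝ)) k, _⟩
    rw [h0 k (x k)]
    have h3 : e.symm (e fun k => (p k (x k) : Fin (d k) → ℝ)) k = p k (x k) := by rw [e.symm_apply_apply]
    exact congrArg (i k) (Subtype.ext h3.symm)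
  · intro x
    funext k
    exact h1 k (x k)
  · intro t x
    exact hV3 _ _ fun k => h2 k t (x k)

end Pool.Agent.H92.LG
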