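import Pool.Agent.H92.LG.Prd
import Pool.Agent.H76.LN.Defs
import Mathlib.Topology.Homotopy.Product
import Mathlib.Topology.Homotopy.Contractible

/-!
# [H92 LG Top] products over finite types; the transfer criterion for compact metrizable spaces
-/

set_option autoImplicit false

namespace Pool.Agent.H92.LG

open Pool.Agent.H76.GT Pool.Agent.H76.LN Filter Topology

theorem contractible_pi {I : Type} {X : I → Type} [∀ i, TopologicalSpace (X i)] [∀ i, ContractibleSpace (X i)] :
    ContractibleSpace (∀ i, X i) := by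
  rw [contractible_iff_id_nullhomotopic]
  have h : ∀ i, (ContinuousMap.id (X i)).Nullhomotopic := fun i => id_nullhomotopic (X i)
  choose c hc using h
  refine ⟨c, ?_⟩
  have h1 : ∀ i, ContinuousMap.Homotopic ((ContinuousMap.id (X i)).comp (ContinuousMap.eval i : C(∀ i, X i, X i)))
      ((ContinuousMap.const (X i) (c i)).comp (ContinuousMap.eval i : C(∀ i, X i, X i))) :=
    fun i => ContinuousMap.Homotopic.comp (hc i) (ContinuousMap.Homotopic.refl _)
  have h2 := ContinuousMap.Homotopic.pi h1
  have e1 : ContinuousMap.pi (fun i => (ContinuousMap.id (X i)).comp (ContinuousMap.eval i : C(∀ i, X i, X i))) =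
      ContinuousMap.id (∀ i, X i) := rfl
  have e2 : ContinuousMap.pi (fun i => (ContinuousMap.const (X i) (c i)).comp (ContinuousMap.eval i : C(∀ i, X i, X i))) =
      ContinuousMap.const (∀ i, X i) c := rfl
  rw [e1, e2] at h2
  exact h2

theorem topDom_homeo {X Y : Type} [TopologicalSpace X] [TopologicalSpace Y] {N : ℕ} (e : X ≃ₜ Y) (h : TopDom N X) :
    TopDom N Y := by
  intro W hW hW2
  obtain ⟨m, K, hK, p, i, H, h0, h1, h2⟩ := h ((fun a : X × X => (e a.1, e a.2)) ⁻¹' W)
    (hW.preimage (by fun_prop)) (fun x => hW2 (e x))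
  refine ⟨m, K, hK, p.comp ⟨e.symm, e.symm.continuous⟩, (⟨e, e.continuous⟩ : C(X, Y)).comp i,
    ⟨fun q => e (H (q.1, e.symm q.2)), by fun_prop⟩, ?_, ?_, ?_⟩
  · intro y
    show e (H (0, e.symm y)) = e (i (p (e.symm y)))
    rw [h0]
  · intro y
    show e (H (1, e.symm y)) = y
    rw [h1, e.apply_symm_apply]
  · intro t y
    have h3 := h2 t (e.symm y)
    have h4 : (e (H (t, e.symm y)), e (e.symm y)) ∈ W := h3
    rw [e.apply_symm_apply] at h4
    exact h4

theorem topDom_pi_fintype {I : Type} [Fintype I] {X : I → Type} [∀ i, TopologicalSpace (X i)] [∀ i, CompactSpace (X i)]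
    [∀ i, T2Space (X i)] {N : ℕ} (h : ∀ i, TopDom N (X i)) : TopDom (Fintype.card I * N) (∀ i, X i) := by
  let e := (Fintype.equivFin I).symm
  have h1 : TopDom (∑ _k : Fin (Fintype.card I), N) (∀ k : Fin (Fintype.card I), X (e k)) := topDom_pi fun k => h (e k)
  rw [Finset.sum_const, Finset.card_univ, Fintype.card_fin, smul_eq_mul] at h1
  exact topDom_homeo (Homeomorph.piCongrLeft (Y := X) e) h1

/-- the transfer criterion for compact metrizable spaces -/
theorem transferV_top {C : (G : Type) → [Group G] → Prop} (hT : TransferV C) {G : Type} [Group G] (N : ℕ)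
    (hfg : Group.FG G) (h : ∀ S : Set G, S.Finite → ∃ (X : Type) (_ : TopologicalSpace X) (_ : MulAction G X),
      CompactSpace X ∧ T2Space X ∧ SecondCountableTopology X ∧ ContractibleSpace X ∧ ContinuousConstSMul G X ∧
      (∃ n ≤ N, TopDom n X) ∧ ∃ U : Set (Set (G × X)), IsCover C N S U) : C G := by
  refine hT G N hfg fun S hS => ?_
  obtain ⟨X, i1, i2, i3, i4, i5, i6, i7, ⟨n, hn, hdom⟩, hU⟩ := h S hS
  let i8 : MetricSpace X := TopologicalSpace.metrizableSpaceMetric X
  refine ⟨X, i8, i2, i3, i6, i7, ?_, hU⟩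
  intro ε hε
  have hW : IsOpen {q : X × X | dist q.1 q.2 < ε} := isOpen_lt continuous_dist continuous_const
  obtain ⟨m, K, hK, p, i, H, h0, h1, h2⟩ := hdom {q : X × X | dist q.1 q.2 < ε} hW
    (fun x => by
      show dist x x < ε
      rw [dist_self]
      exact hε)
  exact ⟨m, K, hK.mono hn, p, i, H, h0, h1, fun t x => le_of_lt (h2 t x)⟩

end Pool.Agent.H92.LG
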